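import Mathlib

set_option autoImplicit false

open MeasureTheory Set Complex Filter Topology

namespace Pool.Agent.Lib.MP_7c5c90_an

/-- Primitive on a convex open set. -/
theorem exists_primitive_convex {U : Set ℂ} (hU : IsOpen U) (hc : Convex ℝ U) {f : ℂ → ℂ}
    (hf : DifferentiableOn ℂ f U) : ∃ g : ℂ → ℂ, ∀ z ∈ U, HasDerivAt g (f z) z := by
  obtain ⟨g, hg⟩ := hc.exists_forall_hasDerivWithinAt hf
  exact ⟨g, fun z hz => (hg z hz).hasDerivAt (hU.mem_nhds hz)⟩

/-- The radial primitive on an open set that is star-shaped with respect to `0`. -/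
theorem hasDerivAt_radial {U : Set ℂ} (hU : IsOpen U)
    (hs : ∀ z ∈ U, ∀ t : ℝ, t ∈ Icc (0 : ℝ) 1 → (t : ℂ) * z ∈ U) {f : ℂ → ℂ}
    (hf : DifferentiableOn ℂ f U) {z : ℂ} (hz : z ∈ U) :
    HasDerivAt (fun w : ℂ => ∫ t in (0 : ℝ)..1, w * f ((t : ℂ) * w)) (f z) z := by
  have hK : IsCompact (segment ℝ (0 : ℂ) z) := by
    rw [segment_eq_image]
    exact isCompact_Icc.image (by fun_prop)
  have hKU : segment ℝ (0 : ℂ) z ⊆ U := by
    rw [segment_eq_image]
    rintro _ ⟨t, ht, rfl⟩
    simpa using hs z hz t ht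
  obtain ⟨δ, hδ, hW⟩ := hK.exists_thickening_subset_open hU hKU
  set W := Metric.thickening δ (segment ℝ (0 : ℂ) z) with hWdef
  have hWo : IsOpen W := Metric.isOpen_thickening
  have hWc : Convex ℝ W := (convex_segment _ _).thickening δ
  have h0 : (0 : ℂ) ∈ W := Metric.self_subset_thickening hδ _ (left_mem_segment _ _ _)
  have hzW : z ∈ W := Metric.self_subset_thickening hδ _ (right_mem_segment _ _ _)
  obtain ⟨g, hg⟩ := exists_primitive_convex hWo hWc (hf.mono hW)
  have key : ∀ w ∈ W, (∫ t in (0 : ℝ)..1, w * f ((t : ℂ) * w)) = g w - g 0 := by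
    intro w hw
    have hmem : ∀ t ∈ uIcc (0 : ℝ) 1, (t : ℂ) * w ∈ W := by
      intro t ht
      rw [uIcc_of_le zero_le_one] at ht
      have := hWc h0 hw (sub_nonneg.2 ht.2) ht.1 (by ring)
      simpa using this
    have hd : ∀ t ∈ uIcc (0 : ℝ) 1,
        HasDerivAt (fun t : ℝ => g ((t : ℂ) * w)) (w * f ((t : ℂ) * w)) t := by
      intro t ht
      have h1 : HasDerivAt (fun u : ℂ => g (u * w)) (f ((t : ℂ) * w) * w) (t : ℂ) := by
        have := (hg _ (hmem t ht)).comp (t : ℂ) ((hasDerivAt_id (t : ℂ)).mul_const w)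
        simpa [Function.comp_def] using this
      rw [mul_comm]
      exact h1.comp_ofReal
    have hc : ContinuousOn (fun t : ℝ => w * f ((t : ℂ) * w)) (uIcc (0 : ℝ) 1) := by
      refine continuousOn_const.mul ?_
      exact (hf.mono hW).continuousOn.comp (by fun_prop) hmem
    rw [intervalIntegral.integral_eq_sub_of_hasDerivAt hd hc.intervalIntegrable]
    simp
  have hev : (fun w : ℂ => ∫ t in (0 : ℝ)..1, w * f ((t : ℂ) * w)) =ᶠ[𝓝 z]
      fun w => g w - g 0 := by
    filter_upwards [hWo.mem_nhds hzW] with w hw using key w hw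
  exact ((hg z hzW).sub_const (g 0)).congr_of_eventuallyEq hev

/-- Fubini on an open rectangle of the complex plane. -/
theorem setIntegral_rect {E : Type*} [NormedAddCommGroup E] [NormedSpace ℝ E]
    {a b c d : ℝ} (hab : a ≤ b) (hcd : c ≤ d) {f : ℂ → E}
    (hf : IntegrableOn f (Ioo a b ×ℂ Ioo c d)) :
    ∫ z in Ioo a b ×ℂ Ioo c d, f z = ∫ x in a..b, ∫ y in c..d, f (x + y * I) := by
  have hmp := volume_preserving_equiv_real_prod.symm
  have hme := (measurableEquivRealProd.symm).measurableEmbedding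
  have hpre : measurableEquivRealProd.symm ⁻¹' (Ioo a b ×ℂ Ioo c d) = Ioo a b ×ˢ Ioo c d := by
    ext p
    simp [mem_reProdIm]
  rw [← hmp.setIntegral_preimage_emb hme, hpre]
  have hf' : IntegrableOn (fun p : ℝ × ℝ => f (measurableEquivRealProd.symm p))
      (Ioo a b ×ˢ Ioo c d) := by
    rw [← hpre]
    exact (hmp.integrableOn_comp_preimage hme).2 hf
  rw [Measure.volume_eq_prod] at hf' ⊢
  rw [setIntegral_prod _ hf', intervalIntegral.integral_of_le hab, integral_Ioc_eq_integral_Ioo]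
  refine setIntegral_congr_fun measurableSet_Ioo fun x _ => ?_
  rw [intervalIntegral.integral_of_le hcd, integral_Ioc_eq_integral_Ioo]
  refine setIntegral_congr_fun measurableSet_Ioo fun y _ => ?_
  simp only [measurableEquivRealProd_symm_apply, mk_eq_add_mul_I]

theorem isCompact_rect (a b c d : ℝ) : IsCompact (Icc a b ×ℂ Icc c d) :=
  isCompact_Icc.reProdIm isCompact_Icc

theorem integrableOn_rect_of_continuousOn {E : Type*} [NormedAddCommGroup E]
    {a b c d : ℝ} {f : ℂ → E} (hf : ContinuousOn f (Icc a b ×ℂ Icc c d)) :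
    IntegrableOn f (Ioo a b ×ℂ Ioo c d) := by
  refine (hf.integrableOn_compact (isCompact_rect a b c d)).mono_set ?_
  intro z hz
  exact ⟨Ioo_subset_Icc_self hz.1, Ioo_subset_Icc_self hz.2⟩

theorem measurableSet_rect (a b c d : ℝ) : MeasurableSet (Ioo a b ×ℂ Ioo c d) :=
  (isOpen_Ioo.reProdIm isOpen_Ioo).measurableSet

/-- Change of variables for an injective holomorphic map. -/
theorem integral_image_holo {s : Set ℂ} (hs : MeasurableSet s) {f f' : ℂ → ℂ}
    (hf : ∀ z ∈ s, HasDerivAt f (f' z) z) (hinj : InjOn f s) (g : ℂ → ℝ) :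
    ∫ z in f '' s, g z = ∫ z in s, ‖f' z‖ ^ 2 * g (f z) := by
  have hd : ∀ z ∈ s, HasFDerivWithinAt f
      ((ContinuousLinearMap.toSpanSingleton ℂ (f' z)).restrictScalars ℝ) s z := by
    intro z hz
    exact ((hf z hz).hasFDerivAt.restrictScalars ℝ).hasFDerivWithinAt
  rw [integral_image_eq_integral_abs_det_fderiv_smul volume hs hd hinj g]
  refine setIntegral_congr_fun hs fun z _ => ?_
  simp [ContinuousLinearMap.det, LinearMap.det_restrictScalars,
      Algebra.norm_complex_eq, Complex.normSq_eq_norm_sq]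

/-- The area integral over a rectangle through a second primitive. -/
theorem integral_rect_eq_second_primitive {a b c d : ℝ} (hab : a ≤ b) (hcd : c ≤ d)
    {h H1 H : ℂ → ℂ} (hh : ContinuousOn h (Icc a b ×ℂ Icc c d))
    (h1 : ∀ z ∈ Icc a b ×ℂ Icc c d, HasDerivAt H1 (h z) z)
    (h2 : ∀ z ∈ Icc a b ×ℂ Icc c d, HasDerivAt H (H1 z) z) :
    ∫ z in Ioo a b ×ℂ Ioo c d, h z =
      -I * (H (b + d * I) - H (a + d * I) - H (b + c * I) + H (a + c * I)) := by
  rw [setIntegral_rect hab hcd (integrableOn_rect_of_continuousOn hh)]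
  have hmem : ∀ x ∈ Icc a b, ∀ y ∈ Icc c d, ((x : ℂ) + (y : ℂ) * I) ∈ Icc a b ×ℂ Icc c d := by
    intro x hx y hy
    simpa [mem_reProdIm] using ⟨hx, hy⟩
  have inner : ∀ x ∈ uIcc a b, ∫ y in c..d, h (x + y * I) =
      -I * (H1 (x + d * I) - H1 (x + c * I)) := by
    intro x hx
    rw [uIcc_of_le hab] at hx
    have hd : ∀ y ∈ uIcc c d, HasDerivAt (fun y : ℝ => -I * H1 (x + y * I)) (h (x + y * I)) y := by
      intro y hy
      rw [uIcc_of_le hcd] at hy
      have e1 : HasDerivAt (fun u : ℂ => H1 (x + u * I)) (h (x + y * I) * I) (y : ℂ) := by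
        have := (h1 _ (hmem x hx y hy)).comp (y : ℂ)
          (((hasDerivAt_id (y : ℂ)).mul_const I).const_add (x : ℂ))
        simpa [Function.comp_def] using this
      have e2 := (e1.comp_ofReal).const_mul (-I)
      refine e2.congr_deriv ?_
      linear_combination (-(h (x + y * I))) * I_mul_I
    have hc : ContinuousOn (fun y : ℝ => h (x + y * I)) (uIcc c d) := by
      rw [uIcc_of_le hcd]
      exact hh.comp (by fun_prop) (fun y hy => hmem x hx y hy)
    rw [intervalIntegral.integral_eq_sub_of_hasDerivAt hd hc.intervalIntegrable]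
    ring
  rw [intervalIntegral.integral_congr inner]
  have hH1c : ContinuousOn H1 (Icc a b ×ℂ Icc c d) :=
    fun z hz => (h1 z hz).continuousAt.continuousWithinAt
  have hd : ∀ x ∈ uIcc a b, HasDerivAt (fun x : ℝ => -I * (H (x + d * I) - H (x + c * I)))
      (-I * (H1 (x + d * I) - H1 (x + c * I))) x := by
    intro x hx
    rw [uIcc_of_le hab] at hx
    have e : ∀ y ∈ Icc c d, HasDerivAt (fun x : ℝ => H (x + y * I)) (H1 (x + y * I)) x := by
      intro y hy
      have e1 : HasDerivAt (fun u : ℂ => H (u + y * I)) (H1 (x + y * I)) (x : ℂ) := by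
        have := (h2 _ (hmem x hx y hy)).comp (x : ℂ) ((hasDerivAt_id (x : ℂ)).add_const (y * I))
        simpa [Function.comp_def] using this
      exact e1.comp_ofReal
    exact ((e d ⟨hcd, le_rfl⟩).sub (e c ⟨le_rfl, hcd⟩)).const_mul (-I)
  have hc : ContinuousOn (fun x : ℝ => -I * (H1 (x + d * I) - H1 (x + c * I))) (uIcc a b) := by
    rw [uIcc_of_le hab]
    refine continuousOn_const.mul (ContinuousOn.sub ?_ ?_)
    · exact hH1c.comp (by fun_prop) (fun x hx => hmem x hx d ⟨hcd, le_rfl⟩)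
    · exact hH1c.comp (by fun_prop) (fun x hx => hmem x hx c ⟨le_rfl, hcd⟩)
  rw [intervalIntegral.integral_eq_sub_of_hasDerivAt hd hc.intervalIntegrable]
  ring

end Pool.Agent.Lib.MP_7c5c90_an
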