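import Mathlib
import Pool.Agent.Lib.MP_7c5c90_an.Basic

set_option autoImplicit false

open MeasureTheory Set Complex Filter Topology
open scoped Real

namespace Pool.Agent.Lib.MP_7c5c90_an

theorem sinh_re (w : ℂ) : (Complex.sinh w).re = Real.sinh w.re * Real.cos w.im := by
  conv_lhs => rw [← re_add_im w]
  rw [Complex.sinh_add, Complex.cosh_mul_I, Complex.sinh_mul_I]
  simp [← Complex.ofReal_sinh, ← Complex.ofReal_cosh, ← Complex.ofReal_cos, ← Complex.ofReal_sin]

theorem sinh_im (w : ℂ) : (Complex.sinh w).im = Real.cosh w.re * Real.sin w.im := by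
  conv_lhs => rw [← re_add_im w]
  rw [Complex.sinh_add, Complex.cosh_mul_I, Complex.sinh_mul_I]
  simp [← Complex.ofReal_sinh, ← Complex.ofReal_cosh, ← Complex.ofReal_cos, ← Complex.ofReal_sin]

theorem sinh_le_norm (w : ℂ) : Real.sinh w.re ≤ ‖Complex.sinh w‖ := by
  have h1 : Real.sinh w.re ^ 2 ≤ ‖Complex.sinh w‖ ^ 2 := by
    rw [← Complex.normSq_eq_norm_sq, Complex.normSq_apply, sinh_re, sinh_im]
    have := Real.cosh_sq w.re
    have h2 := Real.sin_sq_add_cos_sq w.im
    nlinarith [sq_nonneg (Real.sin w.im)]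
  exact le_trans (le_abs_self _) (abs_le_of_sq_le_sq' h1 (norm_nonneg _) |> fun h => abs_le.2 h)

theorem sinh_le_mul_cosh {x : ℝ} (hx : 0 ≤ x) : Real.sinh x ≤ x * Real.cosh x := by
  have hd : ∀ y : ℝ, HasDerivAt (fun y => y * Real.cosh y - Real.sinh y) (y * Real.sinh y) y := by
    intro y
    have := ((hasDerivAt_id y).mul (Real.hasDerivAt_cosh y)).sub (Real.hasDerivAt_sinh y)
    refine this.congr_deriv ?_
    simp
  have hm : MonotoneOn (fun y => y * Real.cosh y - Real.sinh y) (Ici 0) := by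
    refine monotoneOn_of_deriv_nonneg (convex_Ici 0) (by fun_prop)
      (fun y _ => (hd y).differentiableAt.differentiableWithinAt) ?_
    intro y hy
    rw [interior_Ici] at hy
    rw [(hd y).deriv]
    exact mul_nonneg (le_of_lt hy) (Real.sinh_nonneg_iff.2 (le_of_lt hy))
  have := hm (self_mem_Ici) hx hx
  simp at this
  linarith

theorem sq_mul_cos_le {y : ℝ} (hy : |y| < π / 2) : y ^ 2 * Real.cos y ≤ y * Real.sin y := by
  have key : ∀ y : ℝ, 0 < y → y < π / 2 → y ^ 2 * Real.cos y ≤ y * Real.sin y := by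
    intro y h0 h1
    have hc : 0 < Real.cos y := Real.cos_pos_of_mem_Ioo ⟨by linarith [Real.pi_pos], h1⟩
    have := Real.lt_tan h0 h1
    rw [Real.tan_eq_sin_div_cos, lt_div_iff₀ hc] at this
    nlinarith
  rcases lt_trichotomy y 0 with h | h | h
  · have := key (-y) (by linarith) (by rw [abs_lt] at hy; linarith)
    simpa using this
  · simp [h]
  · exact key y h (by rw [abs_lt] at hy; linarith)

theorem mul_sin_pos {y : ℝ} (hy : |y| ≤ π / 2) (h0 : y ≠ 0) : 0 < y * Real.sin y := by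
  rw [abs_le] at hy
  rcases lt_or_gt_of_ne h0 with h | h
  · exact mul_pos_of_neg_of_neg h
      (Real.sin_neg_of_neg_of_neg_pi_lt h (by linarith [Real.pi_pos]))
  · exact mul_pos h (Real.sin_pos_of_pos_of_lt_pi h (by linarith [Real.pi_pos]))

/-- `sinh w / w`, extended by `1` at `0`. -/
noncomputable def sig (w : ℂ) : ℂ := dslope Complex.sinh 0 w

theorem mul_sig (w : ℂ) : w * sig w = Complex.sinh w := by
  have := sub_smul_dslope Complex.sinh 0 w
  simpa [sig] using this

theorem sig_zero : sig 0 = 1 := by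
  simp [sig, dslope_same]

theorem sig_eq {w : ℂ} (hw : w ≠ 0) : sig w = Complex.sinh w / w := by
  rw [eq_div_iff hw, mul_comm, mul_sig]

theorem differentiable_sig : Differentiable ℂ sig := by
  rw [← differentiableOn_univ]
  exact (Complex.differentiableOn_dslope univ_mem).2 Complex.differentiable_sinh.differentiableOn

theorem sig_neg (w : ℂ) : sig (-w) = sig w := by
  by_cases hw : w = 0
  · simp [hw]
  · rw [sig_eq hw, sig_eq (neg_ne_zero.2 hw), Complex.sinh_neg, neg_div_neg_eq]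

theorem sig_re_pos {w : ℂ} (hw : |w.im| ≤ π / 2) : 0 < (sig w).re := by
  by_cases h0 : w = 0
  · simp [h0, sig_zero]
  rw [sig_eq h0, Complex.div_re, sinh_re, sinh_im, ← add_div]
  refine div_pos ?_ (Complex.normSq_pos.2 h0)
  have hc : 0 ≤ Real.cos w.im := Real.cos_nonneg_of_mem_Icc (by rw [abs_le] at hw; exact hw)
  have h1 : 0 ≤ Real.sinh w.re * w.re := by
    rcases le_total 0 w.re with h | h
    · exact mul_nonneg (Real.sinh_nonneg_iff.2 h) h
    · exact mul_nonneg_of_nonpos_of_nonpos (Real.sinh_nonpos_iff.2 h) h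
  by_cases hy : w.im = 0
  · have hx : w.re ≠ 0 := fun hx => h0 (Complex.ext hx hy)
    have h2 : 0 < Real.sinh w.re * w.re := by
      rcases lt_or_gt_of_ne hx with h | h
      · exact mul_pos_of_neg_of_neg (Real.sinh_neg_iff.2 h) h
      · exact mul_pos (Real.sinh_pos_iff.2 h) h
    simpa [hy] using h2
  · have h2 := mul_sin_pos hw hy
    have h3 := Real.cosh_pos w.re
    nlinarith [mul_nonneg h1 hc, mul_pos h2 h3]

theorem sig_ne_zero {w : ℂ} (hw : |w.im| ≤ π / 2) : sig w ≠ 0 := by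
  intro h
  have := sig_re_pos hw
  simp [h] at this

theorem re_div_sig_pos {w : ℂ} (hx : 0 < w.re) (hw : |w.im| < π / 2) : 0 < (w / sig w).re := by
  have h0 : w ≠ 0 := fun h => by simp [h] at hx
  have hs : Complex.sinh w ≠ 0 := by
    rw [← mul_sig]; exact mul_ne_zero h0 (sig_ne_zero hw.le)
  have e : w / sig w = w * w / Complex.sinh w := by
    rw [sig_eq h0]; field_simp
  rw [e, Complex.div_re, sinh_re, sinh_im, ← add_div]
  refine div_pos ?_ (Complex.normSq_pos.2 hs)
  have hc : 0 < Real.cos w.im := Real.cos_pos_of_mem_Ioo (by rw [abs_lt] at hw; exact hw)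
  have h1 := sq_mul_cos_le hw
  have h2 := sinh_le_mul_cosh hx.le
  have h3 : 0 < Real.sinh w.re := Real.sinh_pos_iff.2 hx
  have h4 : 0 ≤ w.im ^ 2 * Real.cos w.im := by positivity
  have h5 : Real.sinh w.re * (w.im ^ 2 * Real.cos w.im) ≤
      (w.re * Real.cosh w.re) * (w.im * Real.sin w.im) :=
    mul_le_mul h2 h1 h4 (le_trans h3.le h2)
  simp only [Complex.mul_re, Complex.mul_im]
  have h6 : 0 < w.re ^ 2 * (Real.sinh w.re * Real.cos w.im) := by positivity
  nlinarith [mul_nonneg h3.le h4]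

theorem sqrt_sq' (w : ℂ) : Complex.sqrt w ^ 2 = w := by
  simp [Complex.sqrt]

theorem sqrt_re_pos {w : ℂ} (hw : w ∈ slitPlane) : 0 < (Complex.sqrt w).re := by
  rw [Complex.sqrt, Complex.cpow_inv_two_re]
  refine Real.sqrt_pos.2 (div_pos ?_ two_pos)
  rcases hw with h | h
  · linarith [norm_nonneg w]
  · have := Complex.abs_re_lt_norm.2 h
    rw [abs_lt] at this
    linarith

theorem sqrt_ne_zero' {w : ℂ} (hw : w ∈ slitPlane) : Complex.sqrt w ≠ 0 := by
  intro h
  have := sqrt_re_pos hw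
  simp [h] at this

/-- The open cone `|arg u| < π/4`. -/
def Cone (u : ℂ) : Prop := |u.im| < u.re

theorem cone_of_sq {u : ℂ} (h1 : 0 < u.re) (h2 : 0 < (u ^ 2).re) : Cone u := by
  unfold Cone
  rw [sq, Complex.mul_re] at h2
  exact abs_lt_of_sq_lt_sq' (by nlinarith) h1.le |> fun h => abs_lt.2 h

theorem cone_sqrt {w : ℂ} (hw : 0 < w.re) : Cone (Complex.sqrt w) :=
  cone_of_sq (sqrt_re_pos (Or.inl hw)) (by rw [sqrt_sq']; exact hw)

theorem Cone.mul_re_pos {u v : ℂ} (hu : Cone u) (hv : Cone v) : 0 < (u * v).re := by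
  unfold Cone at hu hv
  rw [Complex.mul_re]
  have h1 : |u.im * v.im| < u.re * v.re := by
    rw [abs_mul]
    exact mul_lt_mul'' hu hv (abs_nonneg _) (abs_nonneg _)
  rw [abs_lt] at h1
  linarith

theorem Cone.div_re_pos {u v : ℂ} (hu : Cone u) (hv : Cone v) : 0 < (u / v).re := by
  unfold Cone at hu hv
  have hv0 : v ≠ 0 := by
    intro h
    simp [h] at hv
  rw [Complex.div_re, ← add_div]
  refine div_pos ?_ (Complex.normSq_pos.2 hv0)
  have h1 : |u.im * v.im| < u.re * v.re := by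
    rw [abs_mul]
    exact mul_lt_mul'' hu hv (abs_nonneg _) (abs_nonneg _)
  rw [abs_lt] at h1
  linarith

/-- The open strip `|Im w| < π/2`. -/
def strip : Set ℂ := {w | |w.im| < π / 2}

theorem isOpen_strip : IsOpen strip :=
  isOpen_lt (by fun_prop) continuous_const

theorem convex_strip : Convex ℝ strip := by
  have : strip = {w : ℂ | -(π / 2) < w.im} ∩ {w : ℂ | w.im < π / 2} := by
    ext w; simp [strip, abs_lt]
  rw [this]
  exact (convex_halfSpace_im_gt _).inter (convex_halfSpace_im_lt _)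

theorem neg_mem_strip {w : ℂ} (hw : w ∈ strip) : -w ∈ strip := by
  simpa [strip] using hw

theorem ofReal_mem_strip (x : ℝ) : (x : ℂ) ∈ strip := by
  simp [strip, Real.pi_pos]

theorem smul_mem_strip {w : ℂ} (hw : w ∈ strip) {t : ℝ} (h0 : 0 ≤ t) (h1 : t ≤ 1) :
    (t : ℂ) * w ∈ strip := by
  have := convex_strip (ofReal_mem_strip 0) hw (sub_nonneg.2 h1) h0 (by ring)
  simpa using this

/-- The set of square roots of points of the strip. -/
def rootStrip : Set ℂ := {z | z ^ 2 ∈ strip}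

theorem isOpen_rootStrip : IsOpen rootStrip :=
  isOpen_strip.preimage (f := fun z : ℂ => z ^ 2) (by fun_prop)

theorem rootStrip_star : ∀ z ∈ rootStrip, ∀ t : ℝ, t ∈ Icc (0 : ℝ) 1 → (t : ℂ) * z ∈ rootStrip := by
  intro z hz t ht
  have := smul_mem_strip hz (t := t ^ 2) (by positivity) (by nlinarith [ht.1, ht.2])
  change ((t : ℂ) * z) ^ 2 ∈ strip
  rw [mul_pow]
  simpa using this

theorem sqrt_mem_rootStrip {w : ℂ} (hw : w ∈ strip) : Complex.sqrt w ∈ rootStrip := by
  change Complex.sqrt w ^ 2 ∈ strip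
  rwa [sqrt_sq']

/-- Derivative of the map from the root strip onto the diamond. -/
noncomputable def psi (z : ℂ) : ℂ := 2 / Complex.sqrt (sig (z ^ 2))

theorem differentiableOn_psi : DifferentiableOn ℂ psi rootStrip := by
  intro z hz
  have h1 : sig (z ^ 2) ∈ slitPlane := Or.inl (sig_re_pos (le_of_lt hz))
  have h3 : DifferentiableAt ℂ (fun z : ℂ => sig (z ^ 2)) z :=
    (differentiable_sig _).comp z (by fun_prop : DifferentiableAt ℂ (fun z : ℂ => z ^ 2) z)
  have h2 : DifferentiableAt ℂ (fun z : ℂ => Complex.sqrt (sig (z ^ 2))) z :=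
    DifferentiableAt.comp (g := Complex.sqrt) z (Complex.differentiableAt_sqrt h1) h3
  exact ((differentiableAt_const _).div h2 (sqrt_ne_zero' h1)).differentiableWithinAt

/-- The map from the root strip onto the diamond. -/
noncomputable def Psi (z : ℂ) : ℂ := ∫ t in (0 : ℝ)..1, z * psi ((t : ℂ) * z)

theorem hasDerivAt_Psi {z : ℂ} (hz : z ∈ rootStrip) : HasDerivAt Psi (psi z) z :=
  hasDerivAt_radial isOpen_rootStrip rootStrip_star differentiableOn_psi hz

theorem Psi_zero : Psi 0 = 0 := by simp [Psi]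

theorem Psi_I_mul (z : ℂ) : Psi (I * z) = I * Psi z := by
  unfold Psi
  rw [← intervalIntegral.integral_const_mul]
  refine intervalIntegral.integral_congr fun t _ => ?_
  have : ((t : ℂ) * (I * z)) ^ 2 = -(((t : ℂ) * z) ^ 2) := by
    linear_combination ((t : ℂ) * z) ^ 2 * I_sq
  simp only [psi, this, sig_neg]
  ring

theorem Psi_neg (z : ℂ) : Psi (-z) = -Psi z := by
  have : -z = I * (I * z) := by linear_combination (-z) * I_mul_I
  rw [this, Psi_I_mul, Psi_I_mul]
  linear_combination (Psi z) * I_mul_I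

theorem cone_integrand {w : ℂ} (hx : 0 < w.re) (hw : w ∈ strip) {t : ℝ} (h0 : 0 < t) (h1 : t ≤ 1) :
    Cone (Complex.sqrt w * psi ((t : ℂ) * Complex.sqrt w)) := by
  have hsq : ((t : ℂ) * Complex.sqrt w) ^ 2 = ((t ^ 2 : ℝ) : ℂ) * w := by
    rw [mul_pow, sqrt_sq']; simp
  have hmem : ((t ^ 2 : ℝ) : ℂ) * w ∈ strip :=
    smul_mem_strip hw (by positivity) (by nlinarith)
  have hre : 0 < (((t ^ 2 : ℝ) : ℂ) * w).re := by
    rw [Complex.re_ofReal_mul]; positivity
  have hs := sig_re_pos (le_of_lt hmem)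
  have e1 : Complex.sqrt w * psi ((t : ℂ) * Complex.sqrt w) =
      ((2 : ℝ) : ℂ) * (Complex.sqrt w / Complex.sqrt (sig (((t ^ 2 : ℝ) : ℂ) * w))) := by
    rw [psi, hsq]; push_cast; ring
  refine cone_of_sq ?_ ?_
  · rw [e1, Complex.re_ofReal_mul]
    exact mul_pos two_pos ((cone_sqrt hx).div_re_pos (cone_sqrt hs))
  · have ht : (t : ℂ) ≠ 0 := by exact_mod_cast h0.ne'
    have e2 : (Complex.sqrt w * psi ((t : ℂ) * Complex.sqrt w)) ^ 2 =
        ((4 / t ^ 2 : ℝ) : ℂ) * ((((t ^ 2 : ℝ) : ℂ) * w) / sig (((t ^ 2 : ℝ) : ℂ) * w)) := by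
      rw [e1, mul_pow, div_pow, sqrt_sq', sqrt_sq']
      push_cast
      field_simp
      ring
    rw [e2, Complex.re_ofReal_mul]
    exact mul_pos (by positivity) (re_div_sig_pos hre hmem)

/-- The map from the strip to the diamond. -/
noncomputable def F (w : ℂ) : ℂ := Psi (Complex.sqrt w)

/-- Its derivative. -/
noncomputable def r (w : ℂ) : ℂ := (Complex.sqrt w * Complex.sqrt (sig w))⁻¹

theorem F_zero : F 0 = 0 := by simp [F, Psi_zero]

theorem cone_F {w : ℂ} (hx : 0 < w.re) (hw : w ∈ strip) : Cone (F w) := by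
  have hz := sqrt_mem_rootStrip hw
  have hc : ContinuousOn (fun t : ℝ => Complex.sqrt w * psi ((t : ℂ) * Complex.sqrt w))
      (uIcc (0 : ℝ) 1) := by
    rw [uIcc_of_le zero_le_one]
    exact continuousOn_const.mul (differentiableOn_psi.continuousOn.comp (by fun_prop)
      (fun t ht => rootStrip_star _ hz t ht))
  have hi := hc.intervalIntegrable (μ := volume)
  have key : ∀ l : ℂ →L[ℝ] ℝ, (∀ u, Cone u → 0 < l u) → 0 < l (F w) := by
    intro l hl
    unfold F Psi
    rw [← l.intervalIntegral_comp_comm hi]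
    refine intervalIntegral.intervalIntegral_pos_of_pos_on
      (l.continuous.comp_continuousOn hc).intervalIntegrable ?_ zero_lt_one
    intro t ht
    exact hl _ (cone_integrand hx hw ht.1 ht.2.le)
  have h1 := key (reCLM - imCLM) (fun u hu => by
    unfold Cone at hu; rw [abs_lt] at hu; simp; linarith [hu.2])
  have h2 := key (reCLM + imCLM) (fun u hu => by
    unfold Cone at hu; rw [abs_lt] at hu; simp; linarith [hu.1])
  simp at h1 h2
  unfold Cone
  rw [abs_lt]
  constructor <;> linarith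

theorem hasDerivAt_F {w : ℂ} (hw : w ∈ strip) (hs : w ∈ slitPlane) : HasDerivAt F (r w) w := by
  have h1 := (hasDerivAt_Psi (sqrt_mem_rootStrip hw)).comp w (Complex.hasDerivAt_sqrt hs)
  refine h1.congr_deriv ?_
  have e : w ^ (-1 / 2 : ℂ) = (Complex.sqrt w)⁻¹ := by
    rw [Complex.sqrt, ← Complex.cpow_neg]; norm_num
  have h2 := sqrt_ne_zero' hs
  have h3 := sqrt_ne_zero' (w := sig w) (Or.inl (sig_re_pos (le_of_lt hw)))
  rw [e, psi, sqrt_sq', r]
  field_simp

theorem continuousAt_F {w : ℂ} (hw : w ∈ strip) (hx : 0 ≤ w.re) : ContinuousAt F w :=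
  ContinuousAt.comp (f := Complex.sqrt) (hasDerivAt_Psi (sqrt_mem_rootStrip hw)).continuousAt
    (Complex.continuousAt_sqrt (Or.inl hx))

theorem F_neg (w : ℂ) : F (-w) = I * F w ∨ F (-w) = -(I * F w) := by
  have h : Complex.sqrt (-w) ^ 2 = (I * Complex.sqrt w) ^ 2 := by
    rw [mul_pow, sqrt_sq', sqrt_sq', I_sq]; ring
  rcases sq_eq_sq_iff_eq_or_eq_neg.1 h with h | h
  · left; rw [F, h, Psi_I_mul, F]
  · right; rw [F, h, Psi_neg, Psi_I_mul, F]

theorem r_sq (w : ℂ) : r w ^ 2 = (Complex.sinh w)⁻¹ := by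
  rw [r, inv_pow, mul_pow, sqrt_sq', sqrt_sq', mul_sig]

theorem cone_r {w : ℂ} (hx : 0 < w.re) (hw : w ∈ strip) : Cone (r w) := by
  have h1 := (cone_sqrt hx).mul_re_pos (cone_sqrt (sig_re_pos (le_of_lt hw)))
  have inv_pos' : ∀ u : ℂ, 0 < u.re → 0 < (u⁻¹).re := by
    intro u hu
    rw [Complex.inv_re]
    exact div_pos hu (Complex.normSq_pos.2 (fun h => by simp [h] at hu))
  refine cone_of_sq (inv_pos' _ h1) ?_
  rw [r_sq]
  refine inv_pos' _ ?_
  rw [sinh_re]
  exact mul_pos (Real.sinh_pos_iff.2 hx)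
    (Real.cos_pos_of_mem_Ioo (by have := hw; simp only [strip, mem_ofPred_eq, abs_lt] at this; exact this))

theorem norm_r_le {w : ℂ} (hx : 0 < w.re) : ‖r w‖ ≤ (√(Real.sinh w.re))⁻¹ := by
  have h1 : ‖r w‖ ^ 2 = ‖Complex.sinh w‖⁻¹ := by rw [← norm_pow, r_sq, norm_inv]
  have h2 : 0 < Real.sinh w.re := Real.sinh_pos_iff.2 hx
  have h3 : ‖r w‖ ^ 2 ≤ ((√(Real.sinh w.re))⁻¹) ^ 2 := by
    rw [h1, inv_pow, Real.sq_sqrt h2.le]
    exact inv_anti₀ h2 (sinh_le_norm w)
  exact (abs_le_of_sq_le_sq' h3 (by positivity)).2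

theorem r_ofReal {s : ℝ} (hs : 0 < s) : r s = ((√(Real.sinh s))⁻¹ : ℝ) := by
  have h2 : 0 < Real.sinh s := Real.sinh_pos_iff.2 hs
  have h : r s ^ 2 = (((√(Real.sinh s))⁻¹ : ℝ) : ℂ) ^ 2 := by
    rw [r_sq, ← Complex.ofReal_pow, inv_pow, Real.sq_sqrt h2.le]
    simp
  rcases sq_eq_sq_iff_eq_or_eq_neg.1 h with h | h
  · exact h
  · exfalso
    have h3 := cone_r (w := s) (by simpa using hs) (ofReal_mem_strip s)
    unfold Cone at h3
    rw [h] at h3
    have : 0 < (√(Real.sinh s))⁻¹ := by positivity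
    simp only [Complex.neg_im, Complex.ofReal_im, Complex.neg_re, Complex.ofReal_re] at h3
    simp at h3
    linarith [Real.sqrt_nonneg (Real.sinh s)]

end Pool.Agent.Lib.MP_7c5c90_an
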