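import Mathlib
import Pool.Agent.Lib.MP_7c5c90_an.Map

set_option autoImplicit false

open MeasureTheory Set Complex Filter Topology
open scoped Real

namespace Pool.Agent.Lib.MP_7c5c90_an

/-- The map along the positive real axis. -/
noncomputable def fr (s : ℝ) : ℝ := (F s).re

theorem hasDerivAt_F_real {s : ℝ} (hs : 0 < s) :
    HasDerivAt (fun s : ℝ => F s) (((√(Real.sinh s))⁻¹ : ℝ) : ℂ) s := by
  rw [← r_ofReal hs]
  exact (hasDerivAt_F (ofReal_mem_strip s) (Or.inl (by simpa using hs))).comp_ofReal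

theorem continuousOn_F_real : ContinuousOn (fun s : ℝ => F s) (Ici 0) := by
  intro s hs
  exact (ContinuousAt.comp (f := fun s : ℝ => (s : ℂ))
    (continuousAt_F (ofReal_mem_strip s) (by simpa using hs))
    continuous_ofReal.continuousAt).continuousWithinAt

theorem F_ofReal {s : ℝ} (hs : 0 ≤ s) : F s = fr s := by
  have hd : ∀ x : ℝ, 0 < x → HasDerivAt (fun s : ℝ => (F s).im) 0 x := by
    intro x hx
    have := imCLM.hasFDerivAt.comp_hasDerivAt x (hasDerivAt_F_real hx)
    simpa [Function.comp_def] using this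
  have hc : ContinuousOn (fun s : ℝ => (F s).im) (Ici 0) :=
    continuous_im.comp_continuousOn continuousOn_F_real
  have hdiff : DifferentiableOn ℝ (fun s : ℝ => (F s).im) (interior (Ici 0)) := by
    rw [interior_Ici]
    exact fun x hx => (hd x hx).differentiableAt.differentiableWithinAt
  have h1 : MonotoneOn (fun s : ℝ => (F s).im) (Ici 0) :=
    monotoneOn_of_deriv_nonneg (convex_Ici 0) hc hdiff (fun x hx => by
      rw [interior_Ici] at hx; rw [(hd x hx).deriv])
  have h2 : AntitoneOn (fun s : ℝ => (F s).im) (Ici 0) :=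
    antitoneOn_of_deriv_nonpos (convex_Ici 0) hc hdiff (fun x hx => by
      rw [interior_Ici] at hx; rw [(hd x hx).deriv])
  have h3 := h1 self_mem_Ici hs hs
  have h4 := h2 self_mem_Ici hs hs
  simp only [ofReal_zero, F_zero, zero_im] at h3 h4
  exact Complex.ext (by simp [fr]) (by simpa using le_antisymm h4 h3)

theorem hasDerivAt_fr {s : ℝ} (hs : 0 < s) : HasDerivAt fr (√(Real.sinh s))⁻¹ s := by
  exact reCLM.hasFDerivAt.comp_hasDerivAt s (hasDerivAt_F_real hs)

theorem continuousOn_fr : ContinuousOn fr (Ici 0) :=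
  continuous_re.comp_continuousOn continuousOn_F_real

theorem fr_zero : fr 0 = 0 := by simp [fr, F_zero]

theorem sqrt_sinh_pos {s : ℝ} (hs : 0 < s) : 0 < √(Real.sinh s) :=
  Real.sqrt_pos.2 (Real.sinh_pos_iff.2 hs)

theorem strictMonoOn_fr : StrictMonoOn fr (Ici 0) := by
  refine strictMonoOn_of_deriv_pos (convex_Ici 0) continuousOn_fr ?_
  intro x hx
  rw [interior_Ici] at hx
  rw [(hasDerivAt_fr hx).deriv]
  exact inv_pos.2 (sqrt_sinh_pos hx)

theorem hasDerivAt_sqrt_sinh {s : ℝ} (hs : 0 < s) :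
    HasDerivAt (fun s => √(Real.sinh s)) (Real.cosh s / (2 * √(Real.sinh s))) s :=
  (Real.hasDerivAt_sinh s).sqrt (Real.sinh_pos_iff.2 hs).ne'

theorem antitoneOn_aux : AntitoneOn (fun s => fr s + 2 * (√(Real.sinh s))⁻¹) (Ioi 0) := by
  have hd : ∀ s : ℝ, 0 < s → HasDerivAt (fun s => fr s + 2 * (√(Real.sinh s))⁻¹)
      ((√(Real.sinh s))⁻¹ + 2 * (-(Real.cosh s / (2 * √(Real.sinh s))) / (√(Real.sinh s)) ^ 2)) s :=
    fun s hs => (hasDerivAt_fr hs).add
      (((hasDerivAt_sqrt_sinh hs).inv (sqrt_sinh_pos hs).ne').const_mul 2)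
  refine antitoneOn_of_deriv_nonpos (convex_Ioi 0)
    (fun s hs => (hd s hs).continuousAt.continuousWithinAt)
    (fun s hs => by
      rw [interior_Ioi] at hs
      exact (hd s hs).differentiableAt.differentiableWithinAt) ?_
  intro s hs
  rw [interior_Ioi] at hs
  have h1 := sqrt_sinh_pos hs
  have h2 : 0 < Real.sinh s := Real.sinh_pos_iff.2 hs
  have h3 := Real.sinh_lt_cosh s
  rw [(hd s hs).deriv, Real.sq_sqrt h2.le]
  have e : (√(Real.sinh s))⁻¹ + 2 * (-(Real.cosh s / (2 * √(Real.sinh s))) / Real.sinh s) =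
      (√(Real.sinh s))⁻¹ * ((Real.sinh s - Real.cosh s) / Real.sinh s) := by
    field_simp
    ring
  rw [e]
  exact mul_nonpos_of_nonneg_of_nonpos (by positivity)
    (div_nonpos_of_nonpos_of_nonneg (by linarith) h2.le)

theorem monotoneOn_aux : MonotoneOn (fun s => fr s + 2 * (√(Real.sinh s) / Real.cosh s)) (Ioi 0) := by
  have hd : ∀ s : ℝ, 0 < s → HasDerivAt (fun s => fr s + 2 * (√(Real.sinh s) / Real.cosh s))
      ((√(Real.sinh s))⁻¹ + 2 * ((Real.cosh s / (2 * √(Real.sinh s)) * Real.cosh s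
        - √(Real.sinh s) * Real.sinh s) / (Real.cosh s) ^ 2)) s :=
    fun s hs => (hasDerivAt_fr hs).add
      (((hasDerivAt_sqrt_sinh hs).div (Real.hasDerivAt_cosh s) (Real.cosh_pos s).ne').const_mul 2)
  refine monotoneOn_of_deriv_nonneg (convex_Ioi 0)
    (fun s hs => (hd s hs).continuousAt.continuousWithinAt)
    (fun s hs => by
      rw [interior_Ioi] at hs
      exact (hd s hs).differentiableAt.differentiableWithinAt) ?_
  intro s hs
  rw [interior_Ioi] at hs
  have h1 := sqrt_sinh_pos hs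
  have h2 : 0 < Real.sinh s := Real.sinh_pos_iff.2 hs
  have h3 := Real.cosh_pos s
  have h4 := Real.cosh_sq s
  have h5 : √(Real.sinh s) ^ 2 = Real.sinh s := Real.sq_sqrt h2.le
  rw [(hd s hs).deriv]
  have e : (√(Real.sinh s))⁻¹ + 2 * ((Real.cosh s / (2 * √(Real.sinh s)) * Real.cosh s
        - √(Real.sinh s) * Real.sinh s) / (Real.cosh s) ^ 2) =
      2 * (Real.cosh s ^ 2 - √(Real.sinh s) ^ 2 * Real.sinh s) /
        (√(Real.sinh s) * Real.cosh s ^ 2) := by
    field_simp
    ring
  rw [e, h5]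
  exact div_nonneg (by nlinarith) (by positivity)

theorem tendsto_sinh_atTop : Tendsto Real.sinh atTop atTop :=
  tendsto_atTop_mono' atTop (by
    filter_upwards [eventually_ge_atTop (0 : ℝ)] with x hx using Real.self_le_sinh_iff.2 hx)
    tendsto_id

theorem tendsto_inv_sqrt_sinh : Tendsto (fun s => (√(Real.sinh s))⁻¹) atTop (𝓝 0) :=
  (Real.tendsto_sqrt_atTop.comp tendsto_sinh_atTop).inv_tendsto_atTop

theorem exists_K : ∃ K : ℝ, Tendsto fr atTop (𝓝 K) := by
  have hm : Monotone (fun s : ℝ => fr (max s 1)) := by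
    intro a b hab
    exact strictMonoOn_fr.monotoneOn (le_trans zero_le_one (le_max_right a 1))
      (le_trans zero_le_one (le_max_right b 1)) (max_le_max_right 1 hab)
  have hb : BddAbove (range fun s : ℝ => fr (max s 1)) := by
    refine ⟨fr 1 + 2 * (√(Real.sinh 1))⁻¹, ?_⟩
    rintro _ ⟨s, rfl⟩
    have h1 := antitoneOn_aux (show (1 : ℝ) ∈ Ioi 0 from mem_Ioi.2 zero_lt_one)
      (show max s 1 ∈ Ioi 0 from lt_of_lt_of_le zero_lt_one (le_max_right s 1)) (le_max_right s 1)
    have h2 : 0 ≤ 2 * (√(Real.sinh (max s 1)))⁻¹ := by positivity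
    simp only at h1 ⊢
    linarith
  refine ⟨_, (tendsto_atTop_ciSup hm hb).congr' ?_⟩
  filter_upwards [eventually_ge_atTop (1 : ℝ)] with s hs
  rw [max_eq_left hs]

/-- Half the diagonal of the diamond. -/
noncomputable def K : ℝ := exists_K.choose

theorem tendsto_K : Tendsto fr atTop (𝓝 K) := exists_K.choose_spec

theorem fr_lt_K {s : ℝ} (hs : 0 ≤ s) : fr s < K := by
  have h1 : fr (s + 1) ≤ K := by
    refine ge_of_tendsto tendsto_K ?_
    filter_upwards [eventually_ge_atTop (s + 1)] with x hx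
    exact strictMonoOn_fr.monotoneOn (show (0 : ℝ) ≤ s + 1 by linarith)
      (show (0 : ℝ) ≤ x by linarith) hx
  exact lt_of_lt_of_le (strictMonoOn_fr hs (show (0 : ℝ) ≤ s + 1 by linarith) (by linarith)) h1

theorem K_pos : 0 < K := by simpa [fr_zero] using fr_lt_K le_rfl

theorem K_sub_le {s : ℝ} (hs : 0 < s) : K - fr s ≤ 2 * (√(Real.sinh s))⁻¹ := by
  have ht : Tendsto (fun s => fr s + 2 * (√(Real.sinh s))⁻¹) atTop (𝓝 (K + 2 * 0)) :=
    tendsto_K.add (tendsto_inv_sqrt_sinh.const_mul 2)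
  have : K + 2 * 0 ≤ fr s + 2 * (√(Real.sinh s))⁻¹ := by
    refine le_of_tendsto ht ?_
    filter_upwards [eventually_ge_atTop s] with x hx
    exact antitoneOn_aux hs (lt_of_lt_of_le hs hx) hx
  linarith

theorem le_K_sub {s : ℝ} (hs : 0 < s) : 2 * (√(Real.sinh s) / Real.cosh s) ≤ K - fr s := by
  have h0 : Tendsto (fun s => √(Real.sinh s) / Real.cosh s) atTop (𝓝 0) := by
    refine squeeze_zero' (Eventually.of_forall fun x => by have := Real.cosh_pos x; positivity) ?_
      tendsto_inv_sqrt_sinh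
    filter_upwards [eventually_gt_atTop (0 : ℝ)] with x hx
    have h1 := sqrt_sinh_pos hx
    have h2 : 0 < Real.sinh x := Real.sinh_pos_iff.2 hx
    rw [div_le_iff₀ (Real.cosh_pos x), inv_mul_eq_div, le_div_iff₀ h1, Real.mul_self_sqrt h2.le]
    exact (Real.sinh_lt_cosh x).le
  have ht : Tendsto (fun s => fr s + 2 * (√(Real.sinh s) / Real.cosh s)) atTop (𝓝 (K + 2 * 0)) :=
    tendsto_K.add (h0.const_mul 2)
  have : fr s + 2 * (√(Real.sinh s) / Real.cosh s) ≤ K + 2 * 0 := by
    refine ge_of_tendsto ht ?_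
    filter_upwards [eventually_ge_atTop s] with x hx
    exact monotoneOn_aux hs (lt_of_lt_of_le hs hx) hx
  linarith

/-- The increasing weight. -/
noncomputable def phi (s : ℝ) : ℝ := (K - fr s) * √(Real.sinh s)

theorem phi_zero : phi 0 = 0 := by simp [phi]

theorem phi_le_two {s : ℝ} (hs : 0 < s) : phi s ≤ 2 := by
  have h1 := sqrt_sinh_pos hs
  have h2 := mul_le_mul_of_nonneg_right (K_sub_le hs) h1.le
  rw [mul_assoc, inv_mul_cancel₀ h1.ne', mul_one] at h2
  exact h2

theorem phi_nonneg {s : ℝ} (hs : 0 ≤ s) : 0 ≤ phi s :=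
  mul_nonneg (sub_nonneg.2 (fr_lt_K hs).le) (Real.sqrt_nonneg _)

theorem continuousOn_phi : ContinuousOn phi (Ici 0) :=
  (continuousOn_const.sub continuousOn_fr).mul (by fun_prop)

theorem hasDerivAt_phi {s : ℝ} (hs : 0 < s) : ∃ d : ℝ, 0 ≤ d ∧ HasDerivAt phi d s := by
  have h1 := sqrt_sinh_pos hs
  refine ⟨_, ?_, ((hasDerivAt_fr hs).const_sub K).mul (hasDerivAt_sqrt_sinh hs)⟩
  have h2 := le_K_sub hs
  have h3 := Real.cosh_pos s
  have h4 : 0 < Real.cosh s / (2 * √(Real.sinh s)) := by positivity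
  have h5 := mul_le_mul_of_nonneg_right h2 h4.le
  have e : 2 * (√(Real.sinh s) / Real.cosh s) * (Real.cosh s / (2 * √(Real.sinh s))) = 1 := by
    field_simp
  rw [e] at h5
  rw [neg_mul, inv_mul_cancel₀ h1.ne']
  linarith

theorem add_mem_strip (x : ℝ) {y : ℝ} (hy : |y| < π / 2) : (x : ℂ) + y * I ∈ strip := by
  simpa [strip] using hy

theorem norm_F_sub {x y : ℝ} (hx : 0 < x) (hy : |y| < π / 2) :
    ‖F (x + y * I) - F x‖ ≤ (√(Real.sinh x))⁻¹ * (π / 2) := by
  have hc : Convex ℝ (strip ∩ {w : ℂ | x ≤ w.re}) := convex_strip.inter (convex_halfSpace_re_ge x)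
  have h := hc.norm_image_sub_le_of_norm_hasDerivWithin_le (f := F) (f' := r)
    (C := (√(Real.sinh x))⁻¹) (x := (x : ℂ)) (y := (x : ℂ) + y * I)
    (fun w hw => (hasDerivAt_F hw.1 (Or.inl (lt_of_lt_of_le hx hw.2))).hasDerivWithinAt)
    (fun w hw => le_trans (norm_r_le (lt_of_lt_of_le hx hw.2))
      (inv_anti₀ (sqrt_sinh_pos hx) (Real.sqrt_le_sqrt (Real.sinh_le_sinh.2 hw.2))))
    ⟨ofReal_mem_strip x, by simp⟩ ⟨add_mem_strip x hy, by simp⟩
  refine le_trans h (mul_le_mul_of_nonneg_left ?_ (by positivity))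
  simpa using hy.le

theorem tendsto_F {y : ℝ} (hy : |y| < π / 2) :
    Tendsto (fun x : ℝ => F (x + y * I)) atTop (𝓝 (K : ℂ)) := by
  have h1 : Tendsto (fun x : ℝ => F (x + y * I) - F x) atTop (𝓝 0) := by
    rw [tendsto_zero_iff_norm_tendsto_zero]
    refine squeeze_zero' (Eventually.of_forall fun _ => norm_nonneg _) ?_
      (by simpa using tendsto_inv_sqrt_sinh.mul_const (π / 2))
    filter_upwards [eventually_gt_atTop (0 : ℝ)] with x hx using by simpa using norm_F_sub hx hy
  have h2 : Tendsto (fun x : ℝ => F x) atTop (𝓝 (K : ℂ)) := by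
    refine ((continuous_ofReal.tendsto K).comp tendsto_K).congr' ?_
    filter_upwards [eventually_ge_atTop (0 : ℝ)] with x hx using (F_ofReal hx).symm
  simpa using h1.add h2

theorem F_upper {w : ℂ} (hx : 0 < w.re) (hw : w ∈ strip) :
    (F w).re - (F w).im < K ∧ (F w).re + (F w).im < K := by
  have key : ∀ l : ℂ →L[ℝ] ℝ, (∀ u, Cone u → 0 < l u) → l (F w) < l K := by
    intro l hl
    have hd : ∀ x : ℝ, 0 < x →
        HasDerivAt (fun x : ℝ => l (F (x + w.im * I))) (l (r (x + w.im * I))) x := by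
      intro x hx
      have e1 : HasDerivAt (fun u : ℂ => F (u + w.im * I)) (r (x + w.im * I)) (x : ℂ) := by
        have := (hasDerivAt_F (add_mem_strip x hw) (Or.inl (by simpa using hx))).comp (x : ℂ)
          ((hasDerivAt_id (x : ℂ)).add_const (w.im * I))
        simpa [Function.comp_def] using this
      exact l.hasFDerivAt.comp_hasDerivAt x e1.comp_ofReal
    have hm : StrictMonoOn (fun x : ℝ => l (F (x + w.im * I))) (Ioi 0) := by
      refine strictMonoOn_of_deriv_pos (convex_Ioi 0)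
        (fun s hs => (hd s hs).continuousAt.continuousWithinAt) ?_
      intro x hx
      rw [interior_Ioi] at hx
      rw [(hd x hx).deriv]
      exact hl _ (cone_r (by simpa using hx) (add_mem_strip x hw))
    have h1 : l (F (((w.re + 1 : ℝ) : ℂ) + w.im * I)) ≤ l K := by
      refine ge_of_tendsto ((l.continuous.tendsto _).comp (tendsto_F hw)) ?_
      filter_upwards [eventually_ge_atTop (w.re + 1)] with x hx'
      exact hm.monotoneOn (show (0 : ℝ) < w.re + 1 by linarith) (show (0 : ℝ) < x by linarith) hx'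
    have h2 := hm hx (show (0 : ℝ) < w.re + 1 by linarith) (by linarith)
    simp only [re_add_im] at h2
    exact lt_of_lt_of_le h2 h1
  have h1 := key (reCLM - imCLM) (fun u hu => by
    unfold Cone at hu; rw [abs_lt] at hu; simp; linarith [hu.2])
  have h2 := key (reCLM + imCLM) (fun u hu => by
    unfold Cone at hu; rw [abs_lt] at hu; simp; linarith [hu.1])
  simp at h1 h2
  exact ⟨h1, h2⟩

theorem injOn_F : InjOn F (strip ∩ {w : ℂ | 0 < w.re}) := by
  intro a ha b hb hab
  by_contra hne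
  have hc : Convex ℝ (strip ∩ {w : ℂ | 0 < w.re}) := convex_strip.inter (convex_halfSpace_re_gt 0)
  have hd0 : b - a ≠ 0 := sub_ne_zero.2 (Ne.symm hne)
  have hmem : ∀ t ∈ Icc (0 : ℝ) 1, a + (t : ℂ) * (b - a) ∈ strip ∩ {w : ℂ | 0 < w.re} := by
    intro t ht
    have := hc.add_smul_sub_mem ha hb ht
    simpa using this
  have hd : ∀ t ∈ Icc (0 : ℝ) 1, HasDerivAt (fun t : ℝ => (F (a + (t : ℂ) * (b - a)) / (b - a)).re)
      (r (a + (t : ℂ) * (b - a))).re t := by
    intro t ht
    have e1 : HasDerivAt (fun u : ℂ => F (a + u * (b - a)) / (b - a))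
        (r (a + (t : ℂ) * (b - a))) (t : ℂ) := by
      have := ((hasDerivAt_F (hmem t ht).1 (Or.inl (hmem t ht).2)).comp (t : ℂ)
        (((hasDerivAt_id (t : ℂ)).mul_const (b - a)).const_add a)).div_const (b - a)
      refine this.congr_deriv ?_
      field_simp
    exact reCLM.hasFDerivAt.comp_hasDerivAt t e1.comp_ofReal
  have hm : StrictMonoOn (fun t : ℝ => (F (a + (t : ℂ) * (b - a)) / (b - a)).re) (Icc 0 1) := by
    refine strictMonoOn_of_deriv_pos (convex_Icc 0 1)
      (fun s hs => (hd s hs).continuousAt.continuousWithinAt) ?_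
    intro t ht
    have ht' : t ∈ Icc (0 : ℝ) 1 := interior_subset ht
    rw [(hd t ht').deriv]
    exact lt_of_le_of_lt (abs_nonneg _) (cone_r (hmem t ht').2 (hmem t ht').1)
  have := hm (left_mem_Icc.2 zero_le_one) (right_mem_Icc.2 zero_le_one) zero_lt_one
  simp [hab] at this

theorem F_mem_diamond {w : ℂ} (hw : w ∈ strip) :
    |(F w).re - (F w).im| ≤ K ∧ |(F w).re + (F w).im| ≤ K := by
  have pos : ∀ w ∈ strip, 0 < w.re →
      |(F w).re - (F w).im| ≤ K ∧ |(F w).re + (F w).im| ≤ K := by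
    intro w hw hx
    have h1 := F_upper hx hw
    have h2 := cone_F hx hw
    unfold Cone at h2
    rw [abs_lt] at h2
    have := K_pos
    constructor <;> rw [abs_le] <;> constructor <;> linarith [h1.1, h1.2, h2.1, h2.2]
  have nonneg : ∀ w ∈ strip, 0 ≤ w.re →
      |(F w).re - (F w).im| ≤ K ∧ |(F w).re + (F w).im| ≤ K := by
    intro w hw hx
    have hcl : IsClosed {u : ℂ | |u.re - u.im| ≤ K ∧ |u.re + u.im| ≤ K} :=
      IsClosed.and (isClosed_le (by fun_prop) continuous_const)
        (isClosed_le (by fun_prop) continuous_const)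
    have ht : Tendsto (fun t : ℝ => F (w + t)) (𝓝[>] 0) (𝓝 (F w)) := by
      have h1 : Tendsto (fun t : ℝ => w + t) (𝓝 0) (𝓝 w) := by
        have : Continuous (fun t : ℝ => w + t) := by fun_prop
        simpa using this.tendsto 0
      exact ((continuousAt_F hw hx).tendsto.comp h1).mono_left nhdsWithin_le_nhds
    refine hcl.mem_of_tendsto ht ?_
    filter_upwards [self_mem_nhdsWithin] with t ht
    refine pos _ (by simpa [strip] using hw) ?_
    have : (0 : ℝ) < t := ht
    simp only [add_re, ofReal_re]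
    linarith
  rcases le_total 0 w.re with hx | hx
  · exact nonneg w hw hx
  · have h := nonneg (-w) (neg_mem_strip hw) (by simpa using hx)
    have h2 := F_neg (-w)
    rw [neg_neg] at h2
    rcases h2 with h2 | h2 <;> rw [h2]
    · simp only [mul_re, I_re, zero_mul, I_im, one_mul, zero_sub, mul_im, zero_add]
      constructor
      · rw [← abs_neg]; convert h.2 using 2; ring
      · convert h.1 using 2; ring
    · simp only [neg_re, neg_im, mul_re, I_re, zero_mul, I_im, one_mul, zero_sub, mul_im, zero_add]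
      constructor
      · convert h.2 using 2; ring
      · rw [← abs_neg]; convert h.1 using 2; ring

end Pool.Agent.Lib.MP_7c5c90_an
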