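import Mathlib
import Pool.Agent.Lib.MP_7c5c90_an.Map2

set_option autoImplicit false

open MeasureTheory Set Complex Filter Topology
open scoped Real

namespace Pool.Agent.Lib.MP_7c5c90_an

theorem continuous_inner {q : ℂ → ℂ} (hq : ContinuousOn q strip) {b : ℝ} (hb0 : 0 < b)
    (hb : b < π / 2) : Continuous (fun x : ℝ => ∫ y in (-b)..b, ‖q (x + y * I)‖) := by
  have hle : -b ≤ b := by linarith
  have hc : Continuous (Function.uncurry fun (x y : ℝ) =>
      ‖q (x + ((projIcc (-b) b hle y : Icc (-b) b) : ℝ) * I)‖) := by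
    refine Continuous.norm (hq.comp_continuous ?_ ?_)
    · have := continuous_projIcc (h := hle)
      fun_prop
    · intro p
      refine add_mem_strip _ (lt_of_le_of_lt (abs_le.2 ?_) hb)
      exact (projIcc (-b) b hle p.2).2
  have := intervalIntegral.continuous_parametric_intervalIntegral_of_continuous' (μ := volume)
    hc (-b) b
  refine this.congr fun x => intervalIntegral.integral_congr fun y hy => ?_
  rw [uIcc_of_le hle] at hy
  simp only [projIcc_of_mem hle hy]

theorem sinh_ne_zero_of_re_pos {u : ℂ} (hu : 0 < u.re) : Complex.sinh u ≠ 0 :=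
  norm_pos_iff.1 (lt_of_lt_of_le (Real.sinh_pos_iff.2 hu) (sinh_le_norm u))

theorem norm_coth_sub_one {u : ℂ} (hu : 0 < u.re) :
    ‖Complex.cosh u / Complex.sinh u - 1‖ ≤ (Real.sinh u.re)⁻¹ := by
  have h0 := sinh_ne_zero_of_re_pos hu
  have e : Complex.cosh u / Complex.sinh u - 1 = Complex.exp (-u) / Complex.sinh u := by
    rw [← Complex.cosh_sub_sinh]; field_simp
  have h1 : ‖Complex.exp (-u)‖ ≤ 1 := by
    rw [Complex.norm_exp, Real.exp_le_one_iff]; simpa using hu.le
  have h2 : 0 < Real.sinh u.re := Real.sinh_pos_iff.2 hu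
  rw [e, norm_div, inv_eq_one_div]
  exact div_le_div₀ zero_le_one h1 h2 (sinh_le_norm u)

theorem tendsto_vertical {P : ℂ → ℂ} {L : ℂ} {e : ℝ → ℝ} (hP : ContinuousOn P strip)
    (he : Tendsto e atTop (𝓝 0))
    (hlim : ∀ᶠ R : ℝ in atTop, ∀ y : ℝ, |y| < π / 2 → ‖P (R + y * I) - L‖ ≤ e R)
    {a b : ℝ} (ha : 0 < a) (hb0 : 0 < b) (hb : b < π / 2) (A : ℂ) (t : ℝ) :
    Tendsto (fun R : ℝ => ∫ y in (-b)..b, (P (R + y * I) - A) *
      (Complex.cosh (a * (R + y * I - t)) / Complex.sinh (a * (R + y * I - t))))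
      atTop (𝓝 (2 * b * (L - A))) := by
  have hle : -b ≤ b := by linarith
  have hδ : Tendsto (fun R : ℝ => (Real.sinh (a * (R - t)))⁻¹) atTop (𝓝 0) := by
    refine (tendsto_sinh_atTop.comp ?_).inv_tendsto_atTop
    exact (tendsto_atTop_add_const_right atTop (-t) tendsto_id).const_mul_atTop ha
  have hB : Tendsto (fun R : ℝ => (e R * (1 + (Real.sinh (a * (R - t)))⁻¹) +
      ‖L - A‖ * (Real.sinh (a * (R - t)))⁻¹) * |b - -b|) atTop (𝓝 0) := by
    simpa using ((he.mul (hδ.const_add 1)).add (hδ.const_mul ‖L - A‖)).mul_const |b - -b|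
  rw [tendsto_iff_norm_sub_tendsto_zero]
  refine squeeze_zero' (Eventually.of_forall fun _ => norm_nonneg _) ?_ hB
  filter_upwards [hlim, eventually_gt_atTop t] with R hR hRt
  have hre : ∀ y : ℝ, ((a : ℂ) * (R + y * I - t)).re = a * (R - t) := by
    intro y; simp
  have hpos : 0 < a * (R - t) := mul_pos ha (sub_pos.2 hRt)
  have hy : ∀ y ∈ Icc (-b) b, |y| < π / 2 := fun y hy => lt_of_le_of_lt (abs_le.2 hy) hb
  have hc : ContinuousOn (fun y : ℝ => (P (R + y * I) - A) *
      (Complex.cosh (a * (R + y * I - t)) / Complex.sinh (a * (R + y * I - t)))) (uIcc (-b) b) := by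
    rw [uIcc_of_le hle]
    refine ContinuousOn.mul (ContinuousOn.sub ?_ continuousOn_const) (ContinuousOn.div ?_ ?_ ?_)
    · exact hP.comp (by fun_prop) (fun y h => add_mem_strip _ (hy y h))
    · fun_prop
    · fun_prop
    · intro y _
      exact sinh_ne_zero_of_re_pos (by rw [hre]; exact hpos)
  have e1 : (2 * b * (L - A) : ℂ) = ∫ _ in (-b)..b, (L - A) := by
    rw [intervalIntegral.integral_const]
    simp only [sub_neg_eq_add, real_smul, ofReal_add]
    ring
  rw [e1, ← intervalIntegral.integral_sub hc.intervalIntegrable intervalIntegrable_const]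
  refine intervalIntegral.norm_integral_le_of_norm_le_const fun y hy' => ?_
  rw [uIoc_of_le hle] at hy'
  have h1 := hR y (hy y (Ioc_subset_Icc_self hy'))
  have h2 := norm_coth_sub_one (u := (a : ℂ) * (R + y * I - t)) (by rw [hre]; exact hpos)
  rw [hre] at h2
  set c := Complex.cosh (a * (R + y * I - t)) / Complex.sinh (a * (R + y * I - t)) with hc'
  have h3 : ‖c‖ ≤ 1 + (Real.sinh (a * (R - t)))⁻¹ := by
    calc ‖c‖ = ‖1 + (c - 1)‖ := by ring_nf
      _ ≤ ‖(1 : ℂ)‖ + ‖c - 1‖ := norm_add_le _ _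
      _ ≤ _ := by rw [norm_one]; linarith
  calc ‖(P (R + y * I) - A) * c - (L - A)‖
      = ‖(P (R + y * I) - L) * c + (L - A) * (c - 1)‖ := by ring_nf
    _ ≤ ‖(P (R + y * I) - L) * c‖ + ‖(L - A) * (c - 1)‖ := norm_add_le _ _
    _ ≤ _ := by
      rw [norm_mul, norm_mul]
      exact add_le_add (mul_le_mul h1 h3 (norm_nonneg _) (le_trans (norm_nonneg _) h1))
        (mul_le_mul_of_nonneg_left h2 (norm_nonneg _))

theorem strip_bound_aux {P q : ℂ → ℂ} {L : ℂ} {N : ℝ} {e : ℝ → ℝ}
    (hP : ∀ w ∈ strip, HasDerivAt P (q w) w) (hq : ContinuousOn q strip)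
    (heven : ∀ w ∈ strip, P (-w) = P w) (he : Tendsto e atTop (𝓝 0))
    (hlim : ∀ᶠ R : ℝ in atTop, ∀ y : ℝ, |y| < π / 2 → ‖P (R + y * I) - L‖ ≤ e R)
    {b : ℝ} (hb0 : 0 < b) (hb : b < π / 2)
    (hN : ∀ R : ℝ, 0 < R → ∫ x in (-R)..R, ∫ y in (-b)..b, ‖q (x + y * I)‖ ≤ N) (s : ℝ) :
    4 * b * ‖P s - L‖ ≤ N := by
  have hle : -b ≤ b := by linarith
  set a : ℝ := π / (2 * b) with ha
  have ha0 : 0 < a := div_pos Real.pi_pos (by linarith)
  have hab : a * b = π / 2 := by rw [ha]; field_simp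
  have haC : (a : ℂ) ≠ 0 := by exact_mod_cast ha0.ne'
  have hPd : DifferentiableOn ℂ P strip :=
    fun w hw => (hP w hw).differentiableAt.differentiableWithinAt
  have hPc : ContinuousOn P strip := hPd.continuousOn
  set G : ℂ → ℂ := fun w => dslope P s w *
    (Complex.cosh (a * (w - s)) / (a * sig (a * (w - s)))) with hG
  have him : ∀ w : ℂ, |w.im| ≤ b → |((a : ℂ) * (w - s)).im| ≤ π / 2 := by
    intro w hw
    have : ((a : ℂ) * (w - s)).im = a * w.im := by simp
    rw [this, abs_mul, abs_of_pos ha0, ← hab]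
    exact mul_le_mul_of_nonneg_left hw ha0.le
  have hGd : DifferentiableOn ℂ G {w : ℂ | |w.im| ≤ b} := by
    refine DifferentiableOn.mul ?_ (DifferentiableOn.div ?_ ?_ ?_)
    · exact ((Complex.differentiableOn_dslope
        (isOpen_strip.mem_nhds (ofReal_mem_strip s))).2 hPd).mono
        (fun w hw => lt_of_le_of_lt hw hb)
    · fun_prop
    · have := differentiable_sig
      fun_prop
    · exact fun w hw => mul_ne_zero haC (sig_ne_zero (him w hw))
  have hGeq : ∀ w : ℂ, |w.im| ≤ b → w ≠ s → G w = (P w - P s) *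
      (Complex.cosh (a * (w - s)) / Complex.sinh (a * (w - s))) := by
    intro w hw hws
    have h1 := sig_ne_zero (him w hw)
    have h2 : w - s ≠ 0 := sub_ne_zero.2 hws
    simp only [hG]
    rw [dslope_of_ne _ hws, slope_def_field, ← mul_sig]
    field_simp
  have htanh : ∀ x : ℝ, ∀ σ : ℝ, (σ = b ∨ σ = -b) →
      Complex.cosh (a * (x + σ * I - s)) / Complex.sinh (a * (x + σ * I - s)) =
        (Real.tanh (a * (x - s)) : ℝ) := by
    intro x σ hσ
    have hab' : (a : ℂ) * b = π / 2 := by exact_mod_cast hab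
    have hc : Complex.cosh ((a : ℂ) * (x - s)) ≠ 0 := by
      exact_mod_cast (Real.cosh_pos (a * (x - s))).ne'
    rcases hσ with h | h
    · have : (a : ℂ) * (x + σ * I - s) = a * (x - s) + (π / 2) * I := by
        rw [h, ← hab']; ring
      rw [this, Complex.cosh_add, Complex.sinh_add, Complex.cosh_mul_I, Complex.sinh_mul_I,
        Complex.cos_pi_div_two, Complex.sin_pi_div_two]
      push_cast
      rw [Complex.tanh_eq_sinh_div_cosh]
      simp only [mul_zero, one_mul, zero_add]
      field_simp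
    · have : (a : ℂ) * (x + σ * I - s) = a * (x - s) - (π / 2) * I := by
        rw [h, ← hab']; push_cast; ring
      rw [this, Complex.cosh_sub, Complex.sinh_sub, Complex.cosh_mul_I, Complex.sinh_mul_I,
        Complex.cos_pi_div_two, Complex.sin_pi_div_two]
      push_cast
      rw [Complex.tanh_eq_sinh_div_cosh]
      simp only [mul_zero, one_mul, zero_sub]
      field_simp
  have hV1 := tendsto_vertical hPc he hlim ha0 hb0 hb (P s) s
  have hV2 := tendsto_vertical hPc he hlim ha0 hb0 hb (P s) (-s)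
  have hlimit := (hV1.add hV2).norm
  have efin : ‖2 * (b : ℂ) * (L - P s) + 2 * b * (L - P s)‖ = 4 * b * ‖P s - L‖ := by
    have : 2 * (b : ℂ) * (L - P s) + 2 * b * (L - P s) = ((-(4 * b) : ℝ) : ℂ) * (P s - L) := by
      push_cast; ring
    rw [this, norm_mul, Complex.norm_real, Real.norm_eq_abs, abs_neg, abs_of_pos (by linarith)]
  rw [efin] at hlimit
  refine le_of_tendsto hlimit ?_
  filter_upwards [eventually_gt_atTop |s|] with R hR
  have hR0 : 0 < R := lt_of_le_of_lt (abs_nonneg s) hR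
  have hRs := abs_lt.1 hR
  have hC := Complex.integral_boundary_rect_eq_zero_of_differentiableOn G
    ((-R : ℝ) + (-b : ℝ) * I) ((R : ℝ) + (b : ℝ) * I) (hGd.mono (by
      intro w hw
      have := hw.2
      simp only [add_im, ofReal_im, mul_im, ofReal_re, I_im, mul_one, I_re, mul_zero, add_zero,
        zero_add, mem_preimage, uIcc_of_le hle] at this
      exact abs_le.2 this))
  simp only [add_re, ofReal_re, mul_re, I_re, mul_zero, ofReal_im, I_im, mul_one, sub_self,
    add_zero, add_im, mul_im, zero_add, smul_eq_mul] at hC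
  have hyb : ∀ x y : ℝ, y ∈ uIcc (-b) b → |((x : ℂ) + y * I).im| ≤ b := by
    intro x y hy
    rw [uIcc_of_le hle] at hy
    simpa using abs_le.2 hy
  have eR : ∫ y in (-b)..b, G ((R : ℂ) + y * I) = ∫ y in (-b)..b, (P (R + y * I) - P s) *
      (Complex.cosh (a * (R + y * I - s)) / Complex.sinh (a * (R + y * I - s))) := by
    refine intervalIntegral.integral_congr fun y hy => hGeq _ (hyb R y hy) ?_
    intro h
    have := congrArg Complex.re h
    simp at this
    linarith
  have eL : ∫ y in (-b)..b, G (((-R : ℝ) : ℂ) + y * I) = -∫ y in (-b)..b, (P (R + y * I) - P s) *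
      (Complex.cosh (a * (R + y * I - (-s : ℝ))) / Complex.sinh (a * (R + y * I - (-s : ℝ)))) := by
    have := intervalIntegral.integral_comp_neg (a := -b) (b := b) (fun y : ℝ =>
      (P (R + y * I) - P s) *
      (Complex.cosh (a * (R + y * I - (-s : ℝ))) / Complex.sinh (a * (R + y * I - (-s : ℝ)))))
    rw [neg_neg] at this
    rw [← this, ← intervalIntegral.integral_neg]
    refine intervalIntegral.integral_congr fun y hy => ?_
    have hne : ((-R : ℝ) : ℂ) + y * I ≠ s := by
      intro h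
      have := congrArg Complex.re h
      simp at this
      linarith
    have hy2 : |y| < π / 2 := lt_of_le_of_lt (by simpa using hyb 0 y hy) hb
    have e1 : (R : ℂ) + ((-y : ℝ) : ℂ) * I = -(((-R : ℝ) : ℂ) + y * I) := by push_cast; ring
    have e2 : (a : ℂ) * (-(((-R : ℝ) : ℂ) + y * I) - ((-s : ℝ) : ℂ)) =
        -(a * (((-R : ℝ) : ℂ) + y * I - s)) := by push_cast; ring
    rw [hGeq _ (hyb (-R) y hy) hne, e1, heven _ (add_mem_strip (-R) hy2), e2, Complex.cosh_neg,
      Complex.sinh_neg]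
    ring
  have hGc : ∀ σ : ℝ, |σ| ≤ b → ContinuousOn (fun x : ℝ => G (x + σ * I)) (uIcc (-R) R) := by
    intro σ hσ
    exact hGd.continuousOn.comp (by fun_prop) (fun x _ => by simpa using hσ)
  have hbb : |b| ≤ b := (abs_of_pos hb0).le
  have hbb' : |-b| ≤ b := by rw [abs_neg]; exact hbb
  rw [← intervalIntegral.integral_sub (hGc _ hbb').intervalIntegrable
    (hGc _ hbb).intervalIntegrable, eR, eL] at hC
  have hH : ‖∫ x in (-R)..R, (G (x + ((-b : ℝ) : ℂ) * I) - G (x + b * I))‖ ≤ N := by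
    refine le_trans (intervalIntegral.norm_integral_le_of_norm_le (by linarith)
      (Eventually.of_forall fun x _ => ?_)
      ((continuous_inner hq hb0 hb).intervalIntegrable _ _)) (hN R hR0)
    have hne : ∀ σ : ℝ, σ ≠ 0 → (x : ℂ) + σ * I ≠ s := by
      intro σ hσ h
      have := congrArg Complex.im h
      simp at this
      exact hσ this
    rw [hGeq _ (by simpa using hbb) (hne _ (by linarith)),
      hGeq _ (by simpa using hbb) (hne _ hb0.ne'), htanh x (-b) (Or.inr rfl),
      htanh x b (Or.inl rfl)]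
    have hd : ∀ y ∈ uIcc (-b) b,
        HasDerivAt (fun y : ℝ => P (x + y * I)) (q (x + y * I) * I) y := by
      intro y hy
      have hy2 : |y| < π / 2 := lt_of_le_of_lt (by simpa using hyb 0 y hy) hb
      have e1 : HasDerivAt (fun u : ℂ => P (x + u * I)) (q (x + y * I) * I) (y : ℂ) := by
        have := (hP _ (add_mem_strip x hy2)).comp (y : ℂ)
          (((hasDerivAt_id (y : ℂ)).mul_const I).const_add (x : ℂ))
        simpa [Function.comp_def] using this
      exact e1.comp_ofReal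
    have hc : ContinuousOn (fun y : ℝ => q (x + y * I) * I) (uIcc (-b) b) := by
      refine ContinuousOn.mul (hq.comp (by fun_prop) (fun y hy => add_mem_strip x ?_))
        continuousOn_const
      exact lt_of_le_of_lt (by simpa using hyb 0 y hy) hb
    have hftc := intervalIntegral.integral_eq_sub_of_hasDerivAt hd hc.intervalIntegrable
    have e3 : (P (x + ((-b : ℝ) : ℂ) * I) - P s) * (Real.tanh (a * (x - s)) : ℝ) -
        (P (x + b * I) - P s) * (Real.tanh (a * (x - s)) : ℝ) =
        -((∫ y in (-b)..b, q (x + y * I) * I) * (Real.tanh (a * (x - s)) : ℝ)) := by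
      rw [hftc]; ring
    rw [e3, norm_neg, norm_mul, Complex.norm_real, Real.norm_eq_abs]
    have h4 : ‖∫ y in (-b)..b, q (x + y * I) * I‖ ≤ ∫ y in (-b)..b, ‖q (x + y * I)‖ := by
      refine le_trans (intervalIntegral.norm_integral_le_integral_norm hle) (le_of_eq ?_)
      simp
    have h5 : |Real.tanh (a * (x - s))| ≤ 1 := (Real.abs_tanh_lt_one _).le
    calc _ ≤ ‖∫ y in (-b)..b, q (x + y * I) * I‖ * 1 :=
          mul_le_mul_of_nonneg_left h5 (norm_nonneg _)
      _ ≤ _ := by rw [mul_one]; exact h4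
  set Hh := ∫ x in (-R)..R, (G (x + ((-b : ℝ) : ℂ) * I) - G (x + b * I))
  set V1 := ∫ y in (-b)..b, (P (R + y * I) - P s) *
      (Complex.cosh (a * (R + y * I - s)) / Complex.sinh (a * (R + y * I - s)))
  set V2 := ∫ y in (-b)..b, (P (R + y * I) - P s) *
      (Complex.cosh (a * (R + y * I - (-s : ℝ))) / Complex.sinh (a * (R + y * I - (-s : ℝ))))
  have e4 : V1 + V2 = I * Hh := by linear_combination (-I) * hC + (V1 + V2) * I_mul_I
  rw [e4, norm_mul, Complex.norm_I, one_mul]
  exact hH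

theorem strip_bound {P q : ℂ → ℂ} {L : ℂ} {N : ℝ} {e : ℝ → ℝ}
    (hP : ∀ w ∈ strip, HasDerivAt P (q w) w) (hq : ContinuousOn q strip)
    (heven : ∀ w ∈ strip, P (-w) = P w) (he : Tendsto e atTop (𝓝 0))
    (hlim : ∀ᶠ R : ℝ in atTop, ∀ y : ℝ, |y| < π / 2 → ‖P (R + y * I) - L‖ ≤ e R)
    (hN : ∀ b : ℝ, 0 < b → b < π / 2 → ∀ R : ℝ, 0 < R →
      ∫ x in (-R)..R, ∫ y in (-b)..b, ‖q (x + y * I)‖ ≤ N) (s : ℝ) :
    2 * π * ‖P s - L‖ ≤ N := by
  have ht : Tendsto (fun b : ℝ => 4 * b * ‖P s - L‖) (𝓝[<] (π / 2))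
      (𝓝 (4 * (π / 2) * ‖P s - L‖)) := by
    have : Continuous (fun b : ℝ => 4 * b * ‖P s - L‖) := by fun_prop
    exact (this.tendsto _).mono_left nhdsWithin_le_nhds
  have h := le_of_tendsto ht (b := N) (by
    filter_upwards [Ioo_mem_nhdsLT (show (0 : ℝ) < π / 2 by positivity)] with b hb
    exact strip_bound_aux hP hq heven he hlim hb.1 hb.2 (hN b hb.1 hb.2) s)
  linarith

end Pool.Agent.Lib.MP_7c5c90_an
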