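import Mathlib
import Pool.Agent.Lib.MP_7c5c90_an.Strip

set_option autoImplicit false

open MeasureTheory Set Complex Filter Topology
open scoped Real

namespace Pool.Agent.Lib.MP_7c5c90_an

/-- The scaling constant from the diamond to the square of half side `ρ`. -/
noncomputable def cc (ρ : ℝ) : ℂ := ((ρ / K : ℝ) : ℂ) * (1 + I)

theorem cc_mul_re (ρ : ℝ) (u : ℂ) : (cc ρ * u).re = ρ / K * (u.re - u.im) := by
  rw [cc, mul_assoc, Complex.re_ofReal_mul]; simp

theorem cc_mul_im (ρ : ℝ) (u : ℂ) : (cc ρ * u).im = ρ / K * (u.re + u.im) := by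
  rw [cc, mul_assoc, Complex.im_ofReal_mul]; simp [add_comm]

theorem cc_mul_K (ρ : ℝ) : cc ρ * K = ρ + ρ * I := by
  have : (K : ℂ) ≠ 0 := by exact_mod_cast K_pos.ne'
  rw [cc]; push_cast; field_simp

theorem cc_ne_zero {ρ : ℝ} (hρ : 0 < ρ) : cc ρ ≠ 0 := by
  intro h
  have := cc_mul_re ρ 1
  rw [h] at this
  have h2 : 0 < ρ / K := div_pos hρ K_pos
  simp only [zero_re, one_re, one_im, sub_zero, mul_one] at this
  linarith

theorem Phi_mem_closed {ρ : ℝ} (hρ : 0 < ρ) {w : ℂ} (hw : w ∈ strip) :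
    cc ρ * F w ∈ Icc (-ρ) ρ ×ℂ Icc (-ρ) ρ := by
  have h := F_mem_diamond hw
  have hK := K_pos
  have h2 : 0 < ρ / K := div_pos hρ K_pos
  have e : ρ / K * K = ρ := by field_simp
  rw [mem_reProdIm, cc_mul_re, cc_mul_im, mem_Icc, mem_Icc, ← abs_le, ← abs_le, abs_mul, abs_mul,
    abs_of_pos h2]
  exact ⟨le_of_le_of_eq (mul_le_mul_of_nonneg_left h.1 h2.le) e,
    le_of_le_of_eq (mul_le_mul_of_nonneg_left h.2 h2.le) e⟩

theorem Phi_mem_open {ρ : ℝ} (hρ : 0 < ρ) {w : ℂ} (hw : w ∈ strip) (hx : 0 < w.re) :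
    cc ρ * F w ∈ Ioo 0 ρ ×ℂ Ioo 0 ρ := by
  have h := F_upper hx hw
  have h1 := cone_F hx hw
  unfold Cone at h1
  rw [abs_lt] at h1
  have hK := K_pos
  have h2 : 0 < ρ / K := div_pos hρ K_pos
  have e : ρ / K * K = ρ := by field_simp
  rw [mem_reProdIm, cc_mul_re, cc_mul_im]
  refine ⟨⟨mul_pos h2 (by linarith [h1.2]), ?_⟩, ⟨mul_pos h2 (by linarith [h1.1]), ?_⟩⟩
  · exact lt_of_lt_of_eq (mul_lt_mul_of_pos_left h.1 h2) e
  · exact lt_of_lt_of_eq (mul_lt_mul_of_pos_left h.2 h2) e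

/-- The pulled back quadratic differential on the strip. -/
theorem exists_q {ρ : ℝ} (hρ : 0 < ρ) {h : ℂ → ℂ}
    (hh : ∀ z ∈ Icc (-ρ) ρ ×ℂ Icc (-ρ) ρ, DifferentiableAt ℂ h z)
    (hI : ∀ z, h (I * z) = h z) (h0 : h 0 = 0) :
    ∃ q : ℂ → ℂ, DifferentiableOn ℂ q strip ∧ (∀ w, q (-w) = -q w) ∧
      ∀ w ∈ strip, w ≠ 0 → q w = (cc ρ * r w) ^ 2 * h (cc ρ * F w) := by
  set k : ℂ → ℂ := fun w => h (cc ρ * F w) with hk
  have hkeven : ∀ w, k (-w) = k w := by
    intro w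
    simp only [hk]
    rcases F_neg w with e | e <;> rw [e]
    · rw [← hI (cc ρ * F w)]; congr 1; ring
    · rw [← hI (cc ρ * -(I * F w))]; congr 1
      linear_combination (-(cc ρ * F w)) * I_mul_I
  have hk0 : k 0 = 0 := by simp [hk, F_zero, h0]
  have hslit : ∀ w ∈ strip, w ∈ slitPlane → DifferentiableAt ℂ k w := by
    intro w hw hs
    exact DifferentiableAt.comp (g := h) w (hh _ (Phi_mem_closed hρ hw))
      ((hasDerivAt_F hw hs).differentiableAt.const_mul _)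
  have hkd : DifferentiableOn ℂ k strip := by
    rw [← Complex.differentiableOn_compl_singleton_and_continuousAt_iff
      (isOpen_strip.mem_nhds (ofReal_mem_strip 0))]
    constructor
    · intro w hw
      have hw0 : w ≠ 0 := by simpa using hw.2
      rcases mem_slitPlane_or_neg_mem_slitPlane hw0 with hs | hs
      · exact (hslit w hw.1 hs).differentiableWithinAt
      · have h1 : DifferentiableAt ℂ (fun w => k (-w)) w :=
          DifferentiableAt.comp (g := k) w (hslit _ (neg_mem_strip hw.1) hs) (by fun_prop)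
        simp only [hkeven] at h1
        exact h1.differentiableWithinAt
    · exact ContinuousAt.comp (g := h)
        (hh _ (Phi_mem_closed hρ (ofReal_mem_strip 0))).continuousAt
        (continuousAt_const.mul (continuousAt_F (ofReal_mem_strip 0) (by simp)))
  have hform : ∀ w : ℂ, w ≠ 0 →
      cc ρ ^ 2 * dslope k 0 w / sig w = cc ρ ^ 2 * k w / Complex.sinh w := by
    intro w hw
    rw [dslope_of_ne _ hw, slope_def_field, hk0, sub_zero, sub_zero, ← mul_sig, mul_div_assoc,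
      mul_div_assoc, div_div]
  refine ⟨fun w => cc ρ ^ 2 * dslope k 0 w / sig w, ?_, ?_, ?_⟩
  · refine DifferentiableOn.div (DifferentiableOn.const_mul ?_ _)
      differentiable_sig.differentiableOn (fun w hw => sig_ne_zero (le_of_lt hw))
    exact (Complex.differentiableOn_dslope
      (isOpen_strip.mem_nhds (by simpa using ofReal_mem_strip 0))).2 hkd
  · intro w
    by_cases hw : w = 0
    · have h1 : deriv k 0 = 0 := by
        have h2 := deriv_comp_neg k (0 : ℂ)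
        simp only [hkeven, neg_zero] at h2
        have h3 : deriv k 0 = -deriv k 0 := h2
        linear_combination h3 / 2
      simp [hw, dslope_same, h1]
    · simp only
      rw [hform w hw, hform _ (neg_ne_zero.2 hw), hkeven, Complex.sinh_neg]
      ring
  · intro w _ hw0
    simp only
    rw [hform w hw0, mul_pow, r_sq]
    ring

theorem area_bound {ρ : ℝ} (hρ : 0 < ρ) {h q : ℂ → ℂ}
    (hh : ContinuousOn h (Icc (-ρ) ρ ×ℂ Icc (-ρ) ρ)) (hq : ContinuousOn q strip)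
    (hodd : ∀ w, q (-w) = -q w)
    (hform : ∀ w ∈ strip, w ≠ 0 → q w = (cc ρ * r w) ^ 2 * h (cc ρ * F w))
    (b : ℝ) (hb0 : 0 < b) (hb : b < π / 2) (R : ℝ) (hR : 0 < R) :
    ∫ x in (-R)..R, ∫ y in (-b)..b, ‖q (x + y * I)‖ ≤
      2 * ∫ z in Ioo 0 ρ ×ℂ Ioo 0 ρ, ‖h z‖ := by
  have hle : -b ≤ b := by linarith
  set g : ℝ → ℝ := fun x => ∫ y in (-b)..b, ‖q (x + y * I)‖ with hg
  have hgc : Continuous g := continuous_inner hq hb0 hb
  have hge : ∀ x, g (-x) = g x := by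
    intro x
    have := intervalIntegral.integral_comp_neg (a := -b) (b := b)
      (fun y : ℝ => ‖q (x + y * I)‖)
    rw [neg_neg] at this
    simp only [hg]
    rw [← this]
    refine intervalIntegral.integral_congr fun y _ => ?_
    have e : ((-x : ℝ) : ℂ) + y * I = -((x : ℂ) + ((-y : ℝ) : ℂ) * I) := by push_cast; ring
    rw [e, hodd, norm_neg]
  have h1 : ∫ x in (-R)..R, g x = 2 * ∫ x in (0 : ℝ)..R, g x := by
    rw [← intervalIntegral.integral_add_adjacent_intervals (b := 0)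
      (hgc.intervalIntegrable _ _) (hgc.intervalIntegrable _ _)]
    have := intervalIntegral.integral_comp_neg (a := 0) (b := R) g
    simp only [hge, neg_zero] at this
    rw [← this]; ring
  rw [h1]
  refine mul_le_mul_of_nonneg_left ?_ zero_le_two
  have hsub : Icc 0 R ×ℂ Icc (-b) b ⊆ strip := fun w hw =>
    lt_of_le_of_lt (abs_le.2 hw.2) hb
  have hsub' : Ioo 0 R ×ℂ Ioo (-b) b ⊆ strip ∩ {w : ℂ | 0 < w.re} := fun w hw =>
    ⟨lt_trans (abs_lt.2 hw.2) hb, hw.1.1⟩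
  have h2 := setIntegral_rect hR.le hle (f := fun w => ‖q w‖)
    (integrableOn_rect_of_continuousOn (hq.mono hsub).norm)
  have h3 := integral_image_holo (measurableSet_rect 0 R (-b) b) (f := fun w => cc ρ * F w)
    (f' := fun w => cc ρ * r w)
    (fun w hw => (hasDerivAt_F (hsub' hw).1 (Or.inl (hsub' hw).2)).const_mul _)
    (fun w hw w' hw' e => injOn_F (hsub' hw) (hsub' hw') (mul_left_cancel₀ (cc_ne_zero hρ) e))
    (fun z => ‖h z‖)
  have h4 : ∫ w in Ioo 0 R ×ℂ Ioo (-b) b, ‖q w‖ =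
      ∫ w in Ioo 0 R ×ℂ Ioo (-b) b, ‖cc ρ * r w‖ ^ 2 * ‖h (cc ρ * F w)‖ := by
    refine setIntegral_congr_fun (measurableSet_rect 0 R (-b) b) fun w hw => ?_
    have hw0 : w ≠ 0 := fun e => by
      have := (hsub' hw).2
      simp [e] at this
    rw [hform w (hsub' hw).1 hw0, norm_mul, norm_pow]
  simp only [hg]
  rw [← h2, h4, ← h3]
  refine setIntegral_mono_set ?_ (Eventually.of_forall fun _ => norm_nonneg _) ?_
  · refine integrableOn_rect_of_continuousOn (hh.mono ?_).norm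
    intro z hz
    exact ⟨⟨by linarith [hz.1.1], hz.1.2⟩, ⟨by linarith [hz.2.1], hz.2.2⟩⟩
  · refine LE.le.eventuallyLE ?_
    rintro _ ⟨w, hw, rfl⟩
    exact Phi_mem_open hρ (hsub' hw).1 (hsub' hw).2

theorem core {ρ : ℝ} (hρ : 0 < ρ) {h H1 H : ℂ → ℂ}
    (hh : ∀ z ∈ Icc (-ρ) ρ ×ℂ Icc (-ρ) ρ, DifferentiableAt ℂ h z)
    (h1 : ∀ z ∈ Icc (-ρ) ρ ×ℂ Icc (-ρ) ρ, HasDerivAt H1 (h z) z)
    (h2 : ∀ z ∈ Icc (-ρ) ρ ×ℂ Icc (-ρ) ρ, HasDerivAt H (H1 z) z)
    (hI : ∀ z, h (I * z) = h z) (h0 : h 0 = 0) (h10 : H1 0 = 0) (h20 : H 0 = 0) :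
    π * ‖H (ρ + ρ * I)‖ ≤ 2 * ∫ z in Ioo 0 ρ ×ℂ Ioo 0 ρ, ‖h z‖ := by
  obtain ⟨q, hqd, hodd, hform⟩ := exists_q hρ hh hI h0
  have hhc : ContinuousOn h (Icc (-ρ) ρ ×ℂ Icc (-ρ) ρ) :=
    fun z hz => (hh z hz).continuousAt.continuousWithinAt
  obtain ⟨P, hP⟩ := exists_primitive_convex isOpen_strip convex_strip hqd
  have heven : ∀ w ∈ strip, P (-w) = P w := by
    intro w hw
    have hd : ∀ w ∈ strip, HasDerivWithinAt (fun w => P (-w) - P w) 0 strip w := by
      intro w hw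
      have e1 := ((hP _ (neg_mem_strip hw)).comp w (hasDerivAt_neg w)).sub (hP w hw)
      refine (e1.congr_deriv ?_).hasDerivWithinAt
      rw [hodd]; ring
    have := convex_strip.norm_image_sub_le_of_norm_hasDerivWithin_le (C := 0)
      (f' := fun _ => (0 : ℂ)) hd (fun _ _ => by simp) (ofReal_mem_strip 0) hw
    simpa [sub_eq_zero] using this
  obtain ⟨M, hM⟩ := (isCompact_rect (-ρ) ρ (-ρ) ρ).exists_bound_of_continuousOn hhc
  have hM0 : 0 ≤ M := le_trans (norm_nonneg _) (hM _ (Phi_mem_closed hρ (ofReal_mem_strip 0)))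
  set C : ℝ := ‖cc ρ‖ ^ 2 * M with hC
  have hC0 : 0 ≤ C := by positivity
  have hqb : ∀ w ∈ strip, 0 < w.re → ‖q w‖ ≤ C * ((√(Real.sinh w.re))⁻¹) ^ 2 := by
    intro w hw hx
    have hw0 : w ≠ 0 := fun e => by simp [e] at hx
    rw [hform w hw hw0, norm_mul, norm_pow, norm_mul, mul_pow, hC]
    have e1 := pow_le_pow_left₀ (norm_nonneg _) (norm_r_le hx) 2
    have e2 := hM _ (Phi_mem_closed hρ hw)
    calc ‖cc ρ‖ ^ 2 * ‖r w‖ ^ 2 * ‖h (cc ρ * F w)‖
        ≤ ‖cc ρ‖ ^ 2 * ((√(Real.sinh w.re))⁻¹) ^ 2 * M := by gcongr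
      _ = _ := by ring
  have hPr : ∀ s : ℝ, HasDerivAt (fun s : ℝ => P s) (q s) s :=
    fun s => (hP _ (ofReal_mem_strip s)).comp_ofReal
  have hint : IntegrableOn (fun s : ℝ => q s) (Ioi 1) := by
    have hi : IntegrableOn (fun s : ℝ => (√(Real.sinh s))⁻¹) (Ioi 1) :=
      integrableOn_Ioi_deriv_of_nonneg' (g := fr)
        (fun x hx => hasDerivAt_fr (lt_of_lt_of_le zero_lt_one hx))
        (fun x _ => by positivity) tendsto_K
    have hc : Continuous (fun s : ℝ => q s) :=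
      hqd.continuousOn.comp_continuous continuous_ofReal ofReal_mem_strip
    refine Integrable.mono' (hi.const_mul C) hc.aestronglyMeasurable ?_
    refine (ae_restrict_iff' measurableSet_Ioi).2 (Eventually.of_forall fun s hs => ?_)
    have hs1 : (1 : ℝ) < s := hs
    have e1 := hqb s (ofReal_mem_strip s) (by simpa using lt_trans zero_lt_one hs1)
    simp only [ofReal_re] at e1
    have e2 : 1 ≤ √(Real.sinh s) :=
      Real.one_le_sqrt.2 (le_trans hs1.le (Real.self_le_sinh_iff.2 (by linarith)))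
    have e3 : (√(Real.sinh s))⁻¹ ≤ 1 := inv_le_one_of_one_le₀ e2
    have e4 : 0 ≤ (√(Real.sinh s))⁻¹ := by positivity
    refine le_trans e1 (mul_le_mul_of_nonneg_left ?_ hC0)
    nlinarith
  obtain ⟨L, hL⟩ : ∃ L, Tendsto (fun s : ℝ => P s) atTop (𝓝 L) :=
    ⟨_, tendsto_limUnder_of_hasDerivAt_of_integrableOn_Ioi (fun x _ => hPr x) hint⟩
  have hL0 : Tendsto (fun s : ℝ => ‖P s - L‖) atTop (𝓝 0) :=
    tendsto_iff_norm_sub_tendsto_zero.1 hL
  have he : Tendsto (fun R : ℝ => C * ((√(Real.sinh R))⁻¹) ^ 2 * (π / 2) + ‖P R - L‖)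
      atTop (𝓝 0) := by
    simpa using (((tendsto_inv_sqrt_sinh.pow 2).const_mul C).mul_const (π / 2)).add hL0
  have hlim : ∀ᶠ R : ℝ in atTop, ∀ y : ℝ, |y| < π / 2 → ‖P (R + y * I) - L‖ ≤
      C * ((√(Real.sinh R))⁻¹) ^ 2 * (π / 2) + ‖P R - L‖ := by
    filter_upwards [eventually_gt_atTop (0 : ℝ)] with x hx y hy
    have hc : Convex ℝ (strip ∩ {w : ℂ | x ≤ w.re}) :=
      convex_strip.inter (convex_halfSpace_re_ge x)
    have h3 := hc.norm_image_sub_le_of_norm_hasDerivWithin_le (f := P) (f' := q)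
      (C := C * ((√(Real.sinh x))⁻¹) ^ 2) (x := (x : ℂ)) (y := (x : ℂ) + y * I)
      (fun w hw => (hP w hw.1).hasDerivWithinAt)
      (fun w hw => le_trans (hqb w hw.1 (lt_of_lt_of_le hx hw.2))
        (mul_le_mul_of_nonneg_left (pow_le_pow_left₀ (by positivity)
          (inv_anti₀ (sqrt_sinh_pos hx) (Real.sqrt_le_sqrt (Real.sinh_le_sinh.2 hw.2))) 2) hC0))
      ⟨ofReal_mem_strip x, by simp⟩ ⟨add_mem_strip x hy, by simp⟩
    have h4 : ‖(x : ℂ) + y * I - x‖ ≤ π / 2 := by simpa using hy.le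
    calc ‖P (x + y * I) - L‖ = ‖(P (x + y * I) - P x) + (P x - L)‖ := by ring_nf
      _ ≤ ‖P (x + y * I) - P x‖ + ‖P x - L‖ := norm_add_le _ _
      _ ≤ _ := add_le_add (le_trans h3 (mul_le_mul_of_nonneg_left h4 (by positivity))) le_rfl
  set N : ℝ := 2 * ∫ z in Ioo 0 ρ ×ℂ Ioo 0 ρ, ‖h z‖ with hN
  have hB := strip_bound (N := N) hP hqd.continuousOn heven he hlim
    (area_bound hρ hhc hqd.continuousOn hodd hform)
  set B : ℝ := N / (2 * π) with hBdef
  have hB' : ∀ s : ℝ, ‖P s - L‖ ≤ B := by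
    intro s
    rw [hBdef, le_div_iff₀ (by positivity), mul_comm]
    exact hB s
  have hB0 : 0 ≤ B := le_trans (norm_nonneg _) (hB' 0)
  obtain ⟨α, hα1, hα⟩ := Complex.exists_norm_eq_mul_self (H (ρ + ρ * I))
  set Θ : ℝ → ℂ := fun s => H1 (cc ρ * F s) * (cc ρ * K - cc ρ * F s) + H (cc ρ * F s)
    - (P s - L) * phi s with hΘ
  have hmem : ∀ s : ℝ, cc ρ * F s ∈ Icc (-ρ) ρ ×ℂ Icc (-ρ) ρ :=
    fun s => Phi_mem_closed hρ (ofReal_mem_strip s)
  have hΘd : ∀ s : ℝ, 0 < s → ∀ d : ℝ, HasDerivAt phi d s →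
      HasDerivAt Θ (-((P s - L) * d)) s := by
    intro s hs d hd
    have hΦ := (hasDerivAt_F_real hs).const_mul (cc ρ)
    have e1 := (h1 _ (hmem s)).scomp s hΦ
    have e2 := (h2 _ (hmem s)).scomp s hΦ
    have e3 := ((e1.mul (hΦ.const_sub (cc ρ * K))).add e2).sub
      (((hPr s).sub_const L).mul hd.ofReal_comp)
    refine e3.congr_deriv ?_
    have hs0 : (s : ℂ) ≠ 0 := by exact_mod_cast hs.ne'
    have hu : ((√(Real.sinh s) : ℝ) : ℂ) ≠ 0 := by exact_mod_cast (sqrt_sinh_pos hs).ne'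
    rw [hform s (ofReal_mem_strip s) hs0, r_ofReal hs]
    simp only [Function.comp_def, smul_eq_mul, phi, F_ofReal hs.le]
    push_cast
    field_simp
    ring
  have hΘc : ContinuousOn Θ (Ici 0) := by
    have hΦ : ContinuousOn (fun s : ℝ => cc ρ * F s) (Ici 0) :=
      continuousOn_const.mul continuousOn_F_real
    have hH1 : ContinuousOn H1 (Icc (-ρ) ρ ×ℂ Icc (-ρ) ρ) :=
      fun z hz => (h1 z hz).continuousAt.continuousWithinAt
    have hH : ContinuousOn H (Icc (-ρ) ρ ×ℂ Icc (-ρ) ρ) :=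
      fun z hz => (h2 z hz).continuousAt.continuousWithinAt
    refine (((hH1.comp hΦ (fun s _ => hmem s)).mul (continuousOn_const.sub hΦ)).add
      (hH.comp hΦ (fun s _ => hmem s))).sub (ContinuousOn.mul ?_ ?_)
    · exact fun s _ => ((hPr s).continuousAt.sub continuousAt_const).continuousWithinAt
    · exact continuous_ofReal.comp_continuousOn continuousOn_phi
  have hgd : ∀ s : ℝ, 0 < s → ∃ d : ℝ, d ≤ 0 ∧
      HasDerivAt (fun s => (α * Θ s).re - B * phi s) d s := by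
    intro s hs
    obtain ⟨d, hd0, hd⟩ := hasDerivAt_phi hs
    have e1 : HasDerivAt (fun s => (α * Θ s).re) (α * -((P s - L) * d)).re s :=
      reCLM.hasFDerivAt.comp_hasDerivAt s ((hΘd s hs d hd).const_mul α)
    refine ⟨_, ?_, e1.sub (hd.const_mul B)⟩
    have e2 : (α * -((P s - L) * d)).re ≤ B * d := by
      refine le_trans (Complex.re_le_norm _) ?_
      rw [norm_mul, hα1, one_mul, norm_neg, norm_mul, Complex.norm_real, Real.norm_eq_abs,
        abs_of_nonneg hd0]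
      exact mul_le_mul_of_nonneg_right (hB' s) hd0
    linarith
  have hanti : AntitoneOn (fun s => (α * Θ s).re - B * phi s) (Ici 0) := by
    refine antitoneOn_of_deriv_nonpos (convex_Ici 0) ?_ ?_ ?_
    · exact (continuous_re.comp_continuousOn (continuousOn_const.mul hΘc)).sub
        (continuousOn_const.mul continuousOn_phi)
    · rw [interior_Ici]
      intro s hs
      obtain ⟨d, -, hd⟩ := hgd s hs
      exact hd.differentiableAt.differentiableWithinAt
    · rw [interior_Ici]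
      intro s hs
      obtain ⟨d, hd0, hd⟩ := hgd s hs
      rw [hd.deriv]; exact hd0
  have hΘ0 : Θ 0 = 0 := by simp [hΘ, F_zero, h10, h20, phi_zero]
  have hcorner : (ρ : ℂ) + ρ * I ∈ Icc (-ρ) ρ ×ℂ Icc (-ρ) ρ := by
    simp [mem_reProdIm, hρ.le]
  have hΘlim : Tendsto Θ atTop (𝓝 (H (ρ + ρ * I))) := by
    have hF : Tendsto (fun s : ℝ => F s) atTop (𝓝 (K : ℂ)) := by
      simpa using tendsto_F (y := 0) (by simp [Real.pi_pos])
    have hΦ : Tendsto (fun s : ℝ => cc ρ * F s) atTop (𝓝 (ρ + ρ * I)) := by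
      rw [← cc_mul_K]; exact hF.const_mul _
    have e1 := ((h1 _ hcorner).continuousAt.tendsto.comp hΦ).mul (hΦ.const_sub (cc ρ * K))
    have e2 := (h2 _ hcorner).continuousAt.tendsto.comp hΦ
    have e3 : Tendsto (fun s : ℝ => (P s - L) * phi s) atTop (𝓝 0) := by
      rw [tendsto_zero_iff_norm_tendsto_zero]
      refine squeeze_zero' (Eventually.of_forall fun _ => norm_nonneg _) ?_
        (by simpa using hL0.mul_const 2)
      filter_upwards [eventually_gt_atTop (0 : ℝ)] with s hs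
      rw [norm_mul, Complex.norm_real, Real.norm_eq_abs, abs_of_nonneg (phi_nonneg hs.le)]
      exact mul_le_mul_of_nonneg_left (phi_le_two hs) (norm_nonneg _)
    have := (e1.add e2).sub e3
    simpa [cc_mul_K, hΘ, Function.comp_def] using this
  have hfin : ‖H (ρ + ρ * I)‖ ≤ 2 * B := by
    have e1 : Tendsto (fun s => (α * Θ s).re) atTop (𝓝 (α * H (ρ + ρ * I)).re) :=
      (continuous_re.tendsto _).comp (hΘlim.const_mul α)
    rw [← hα, ofReal_re] at e1
    refine le_of_tendsto e1 ?_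
    filter_upwards [eventually_gt_atTop (0 : ℝ)] with s hs
    have e2 := hanti self_mem_Ici (le_of_lt hs) hs.le
    simp only [hΘ0, mul_zero, zero_re, phi_zero, sub_zero] at e2
    have e3 := mul_le_mul_of_nonneg_left (phi_le_two hs) hB0
    linarith
  have hpi := Real.pi_pos
  calc π * ‖H (ρ + ρ * I)‖ ≤ π * (2 * B) := mul_le_mul_of_nonneg_left hfin hpi.le
    _ = N := by rw [hBdef]; field_simp

end Pool.Agent.Lib.MP_7c5c90_an
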