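import Mathlib
import Pool.Agent.Lib.MP_7c5c90_an.Core

set_option autoImplicit false

open MeasureTheory Set Complex Filter Topology
open scoped Real

namespace Pool.Agent.Lib.MP_7c5c90_an

theorem convex_rect (a b c d : ℝ) : Convex ℝ (Ioo a b ×ℂ Ioo c d) := by
  have : Ioo a b ×ℂ Ioo c d = ({w : ℂ | a < w.re} ∩ {w : ℂ | w.re < b}) ∩
      ({w : ℂ | c < w.im} ∩ {w : ℂ | w.im < d}) := by
    ext w; simp [mem_reProdIm]
  rw [this]
  exact ((convex_halfSpace_re_gt _).inter (convex_halfSpace_re_lt _)).inter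
    ((convex_halfSpace_im_gt _).inter (convex_halfSpace_im_lt _))

theorem four_quarters {ρ : ℝ} (hρ : 0 < ρ) {g : ℂ → ℝ} (hg0 : ∀ z, 0 ≤ g z)
    (hg : IntegrableOn g (Ioo (-ρ) ρ ×ℂ Ioo (-ρ) ρ)) :
    (∫ z in Ioo 0 ρ ×ℂ Ioo 0 ρ, g z) + (∫ z in Ioo 0 ρ ×ℂ Ioo 0 ρ, g (I * z)) +
      (∫ z in Ioo 0 ρ ×ℂ Ioo 0 ρ, g (-z)) + (∫ z in Ioo 0 ρ ×ℂ Ioo 0 ρ, g (-(I * z))) ≤
      ∫ z in Ioo (-ρ) ρ ×ℂ Ioo (-ρ) ρ, g z := by
  have rot : ∀ (u : ℂ) (T : Set ℂ), ‖u‖ = 1 → T ⊆ Ioo (-ρ) ρ ×ℂ Ioo (-ρ) ρ →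
      (∀ z ∈ Ioo 0 ρ ×ℂ Ioo 0 ρ, u * z ∈ T) →
      ∫ z in Ioo 0 ρ ×ℂ Ioo 0 ρ, g (u * z) ≤ ∫ z in T, g z := by
    intro u T hu hT hmap
    have hu0 : u ≠ 0 := fun e => by simp [e] at hu
    have := integral_image_holo (measurableSet_rect 0 ρ 0 ρ) (f := fun z => u * z)
      (f' := fun _ => u) (fun z _ => by simpa using (hasDerivAt_id z).const_mul u)
      (fun a _ b _ e => mul_left_cancel₀ hu0 e) g
    simp only [hu, one_pow, one_mul] at this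
    rw [← this]
    refine setIntegral_mono_set (hg.mono_set hT) (Eventually.of_forall hg0)
      (LE.le.eventuallyLE ?_)
    rintro _ ⟨z, hz, rfl⟩
    exact hmap z hz
  have s1 : Ioo 0 ρ ×ℂ Ioo 0 ρ ⊆ Ioo (-ρ) ρ ×ℂ Ioo (-ρ) ρ := fun z hz =>
    ⟨⟨by linarith [hz.1.1], hz.1.2⟩, ⟨by linarith [hz.2.1], hz.2.2⟩⟩
  have s2 : Ioo (-ρ) 0 ×ℂ Ioo 0 ρ ⊆ Ioo (-ρ) ρ ×ℂ Ioo (-ρ) ρ := fun z hz =>
    ⟨⟨hz.1.1, by linarith [hz.1.2]⟩, ⟨by linarith [hz.2.1], hz.2.2⟩⟩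
  have s3 : Ioo (-ρ) 0 ×ℂ Ioo (-ρ) 0 ⊆ Ioo (-ρ) ρ ×ℂ Ioo (-ρ) ρ := fun z hz =>
    ⟨⟨hz.1.1, by linarith [hz.1.2]⟩, ⟨hz.2.1, by linarith [hz.2.2]⟩⟩
  have s4 : Ioo 0 ρ ×ℂ Ioo (-ρ) 0 ⊆ Ioo (-ρ) ρ ×ℂ Ioo (-ρ) ρ := fun z hz =>
    ⟨⟨by linarith [hz.1.1], hz.1.2⟩, ⟨hz.2.1, by linarith [hz.2.2]⟩⟩
  have r2 := rot I _ (by simp) s2 (fun z hz => by
    obtain ⟨⟨a1, a2⟩, ⟨a3, a4⟩⟩ := hz
    simp only [mem_reProdIm, mem_Ioo, mul_re, I_re, zero_mul, I_im, one_mul, zero_sub, mul_im,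
      zero_add]
    exact ⟨⟨by linarith, by linarith⟩, a1, a2⟩)
  have r3 := rot (-1) _ (by simp) s3 (fun z hz => by
    obtain ⟨⟨a1, a2⟩, ⟨a3, a4⟩⟩ := hz
    simp only [mem_reProdIm, mem_Ioo, neg_mul, one_mul, neg_re, neg_im]
    exact ⟨⟨by linarith, by linarith⟩, by linarith, by linarith⟩)
  have r4 := rot (-I) _ (by simp) s4 (fun z hz => by
    obtain ⟨⟨a1, a2⟩, ⟨a3, a4⟩⟩ := hz
    simp only [mem_reProdIm, mem_Ioo, neg_mul, neg_re, neg_im, mul_re, I_re, zero_mul, I_im,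
      one_mul, zero_sub, mul_im, zero_add, neg_neg]
    exact ⟨⟨a3, a4⟩, by linarith, by linarith⟩)
  simp only [neg_mul, one_mul] at r3 r4
  have d12 : Disjoint (Ioo 0 ρ ×ℂ Ioo 0 ρ) (Ioo (-ρ) 0 ×ℂ Ioo 0 ρ) :=
    Set.disjoint_left.2 fun z h1 h2 => lt_asymm h1.1.1 h2.1.2
  have d3 : Disjoint (Ioo 0 ρ ×ℂ Ioo 0 ρ ∪ Ioo (-ρ) 0 ×ℂ Ioo 0 ρ) (Ioo (-ρ) 0 ×ℂ Ioo (-ρ) 0) :=
    Set.disjoint_left.2 fun z h1 h2 => by
      rcases h1 with h1 | h1 <;> exact lt_asymm h1.2.1 h2.2.2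
  have d4 : Disjoint (Ioo 0 ρ ×ℂ Ioo 0 ρ ∪ Ioo (-ρ) 0 ×ℂ Ioo 0 ρ ∪ Ioo (-ρ) 0 ×ℂ Ioo (-ρ) 0)
      (Ioo 0 ρ ×ℂ Ioo (-ρ) 0) :=
    Set.disjoint_left.2 fun z h1 h2 => by
      rcases h1 with (h1 | h1) | h1
      · exact lt_asymm h1.2.1 h2.2.2
      · exact lt_asymm h1.2.1 h2.2.2
      · exact lt_asymm h2.1.1 h1.1.2
  have u12 := union_subset s1 s2
  have u123 := union_subset u12 s3
  have u1234 := union_subset u123 s4
  have e1 := setIntegral_union d12 (measurableSet_rect _ _ _ _) (hg.mono_set s1) (hg.mono_set s2)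
  have e2 := setIntegral_union d3 (measurableSet_rect _ _ _ _) (hg.mono_set u12) (hg.mono_set s3)
  have e3 := setIntegral_union d4 (measurableSet_rect _ _ _ _) (hg.mono_set u123) (hg.mono_set s4)
  have e4 := setIntegral_mono_set hg (Eventually.of_forall hg0) (LE.le.eventuallyLE u1234)
  linarith

theorem l1_bound_rho {h : ℂ → ℂ} (hh : DifferentiableOn ℂ h (Ioo (-1) 1 ×ℂ Ioo (-1) 1))
    (h0 : h 0 = 0) {ρ : ℝ} (hρ : 0 < ρ) (hρ1 : ρ < 1) :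
    π * ‖∫ z in Ioo (-ρ) ρ ×ℂ Ioo (-ρ) ρ, h z‖ ≤ 2 * ∫ z in Ioo (-ρ) ρ ×ℂ Ioo (-ρ) ρ, ‖h z‖ := by
  have hQo : IsOpen (Ioo (-1 : ℝ) 1 ×ℂ Ioo (-1 : ℝ) 1) := isOpen_Ioo.reProdIm isOpen_Ioo
  obtain ⟨G1, hG1⟩ := exists_primitive_convex hQo (convex_rect _ _ _ _) hh
  obtain ⟨G, hG⟩ := exists_primitive_convex hQo (convex_rect _ _ _ _) (f := G1)
    (fun z hz => (hG1 z hz).differentiableAt.differentiableWithinAt)
  have hsub : Icc (-ρ) ρ ×ℂ Icc (-ρ) ρ ⊆ Ioo (-1) 1 ×ℂ Ioo (-1) 1 := fun z hz =>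
    ⟨⟨by linarith [hz.1.1], by linarith [hz.1.2]⟩, ⟨by linarith [hz.2.1], by linarith [hz.2.2]⟩⟩
  have hrot : ∀ z ∈ Icc (-ρ) ρ ×ℂ Icc (-ρ) ρ, I * z ∈ Icc (-ρ) ρ ×ℂ Icc (-ρ) ρ := by
    intro z hz
    obtain ⟨⟨a1, a2⟩, ⟨a3, a4⟩⟩ := hz
    simp only [mem_reProdIm, mem_Icc, mul_re, I_re, zero_mul, I_im, one_mul, zero_sub, mul_im,
      zero_add]
    exact ⟨⟨by linarith, by linarith⟩, a1, a2⟩
  have hneg : ∀ z ∈ Icc (-ρ) ρ ×ℂ Icc (-ρ) ρ, -z ∈ Icc (-ρ) ρ ×ℂ Icc (-ρ) ρ := by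
    intro z hz
    obtain ⟨⟨a1, a2⟩, ⟨a3, a4⟩⟩ := hz
    simp only [mem_reProdIm, mem_Icc, neg_re, neg_im]
    exact ⟨⟨by linarith, by linarith⟩, by linarith, by linarith⟩
  have hII : ∀ z : ℂ, I * (I * z) = -z := fun z => by linear_combination z * I_mul_I
  have comp : ∀ {f : ℂ → ℂ} {d u z : ℂ}, HasDerivAt f d (u * z) →
      HasDerivAt (fun z => f (u * z)) (d * u) z := by
    intro f d u z hf
    simpa [Function.comp_def] using hf.comp z ((hasDerivAt_id z).const_mul u)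
  have four : ∀ {f f' : ℂ → ℂ}, (∀ z ∈ Icc (-ρ) ρ ×ℂ Icc (-ρ) ρ, HasDerivAt f (f' z) z) →
      ∀ z ∈ Icc (-ρ) ρ ×ℂ Icc (-ρ) ρ,
        HasDerivAt (fun z => f (I * z)) (f' (I * z) * I) z ∧
        HasDerivAt (fun z => f (-z)) (-f' (-z)) z ∧
        HasDerivAt (fun z => f (-(I * z))) (-(f' (-(I * z)) * I)) z := by
    intro f f' hf z hz
    refine ⟨comp (hf _ (hrot z hz)), ?_, ?_⟩
    · have := comp (u := -1) (z := z) (d := f' (-z)) (f := f) (by simpa using hf _ (hneg z hz))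
      simpa using this
    · have := comp (u := -I) (z := z) (d := f' (-(I * z))) (f := f)
        (by simpa using hf _ (hneg _ (hrot z hz)))
      simpa using this
  have hd : ∀ z ∈ Icc (-ρ) ρ ×ℂ Icc (-ρ) ρ, HasDerivAt h (deriv h z) z :=
    fun z hz => (hh.differentiableAt (hQo.mem_nhds (hsub hz))).hasDerivAt
  have hc := core hρ (h := fun z => h z + h (I * z) + h (-z) + h (-(I * z)))
    (H1 := fun z => G1 z - I * G1 (I * z) - G1 (-z) + I * G1 (-(I * z)))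
    (H := fun z => G z - G (I * z) + G (-z) - G (-(I * z)))
    (fun z hz => by
      obtain ⟨a1, a2, a3⟩ := four hd z hz
      exact (((hd z hz).differentiableAt.add a1.differentiableAt).add a2.differentiableAt).add
        a3.differentiableAt)
    (fun z hz => by
      obtain ⟨a1, a2, a3⟩ := four (fun z hz => hG1 z (hsub hz)) z hz
      refine ((((hG1 z (hsub hz)).sub (a1.const_mul I)).sub a2).add (a3.const_mul I)).congr_deriv ?_
      linear_combination (-h (I * z) - h (-(I * z))) * I_mul_I)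
    (fun z hz => by
      obtain ⟨a1, a2, a3⟩ := four (fun z hz => hG z (hsub hz)) z hz
      refine ((((hG z (hsub hz)).sub a1).add a2).sub a3).congr_deriv ?_
      ring)
    (fun z => by simp only [hII, neg_neg]; ring)
    (by simp [h0]) (by simp) (by simp)
  have hhc : ContinuousOn h (Icc (-ρ) ρ ×ℂ Icc (-ρ) ρ) := hh.continuousOn.mono hsub
  have hint := integral_rect_eq_second_primitive (a := -ρ) (b := ρ) (c := -ρ) (d := ρ)
    (by linarith) (by linarith) hhc (fun z hz => hG1 z (hsub hz)) (fun z hz => hG z (hsub hz))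
  have e1 : I * ((ρ : ℂ) + ρ * I) = ((-ρ : ℝ) : ℂ) + ρ * I := by
    push_cast; linear_combination (ρ : ℂ) * I_mul_I
  have e2 : -((ρ : ℂ) + ρ * I) = ((-ρ : ℝ) : ℂ) + ((-ρ : ℝ) : ℂ) * I := by push_cast; ring
  have e3 : -(((-ρ : ℝ) : ℂ) + ρ * I) = (ρ : ℂ) + ((-ρ : ℝ) : ℂ) * I := by push_cast; ring
  simp only [e1, e2, e3] at hc
  rw [hint, norm_mul, norm_neg, Complex.norm_I, one_mul]
  have e4 : G (ρ + ρ * I) - G (((-ρ : ℝ) : ℂ) + ρ * I) - G (ρ + ((-ρ : ℝ) : ℂ) * I) +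
      G (((-ρ : ℝ) : ℂ) + ((-ρ : ℝ) : ℂ) * I) = G (ρ + ρ * I) - G (((-ρ : ℝ) : ℂ) + ρ * I) +
      G (((-ρ : ℝ) : ℂ) + ((-ρ : ℝ) : ℂ) * I) - G (ρ + ((-ρ : ℝ) : ℂ) * I) := by ring
  rw [e4]
  refine le_trans hc (mul_le_mul_of_nonneg_left ?_ zero_le_two)
  refine le_trans ?_ (four_quarters hρ (g := fun z => ‖h z‖) (fun _ => norm_nonneg _)
    (integrableOn_rect_of_continuousOn hhc.norm))
  have s1 : Icc 0 ρ ×ℂ Icc 0 ρ ⊆ Icc (-ρ) ρ ×ℂ Icc (-ρ) ρ := fun z hz =>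
    ⟨⟨by linarith [hz.1.1], hz.1.2⟩, ⟨by linarith [hz.2.1], hz.2.2⟩⟩
  have c1 : ContinuousOn h (Icc 0 ρ ×ℂ Icc 0 ρ) := hhc.mono s1
  have c2 : ContinuousOn (fun z => h (I * z)) (Icc 0 ρ ×ℂ Icc 0 ρ) :=
    hhc.comp (by fun_prop) (fun z hz => hrot z (s1 hz))
  have c3 : ContinuousOn (fun z => h (-z)) (Icc 0 ρ ×ℂ Icc 0 ρ) :=
    hhc.comp (by fun_prop) (fun z hz => hneg z (s1 hz))
  have c4 : ContinuousOn (fun z => h (-(I * z))) (Icc 0 ρ ×ℂ Icc 0 ρ) :=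
    hhc.comp (by fun_prop) (fun z hz => hneg _ (hrot z (s1 hz)))
  have i1 := integrableOn_rect_of_continuousOn c1.norm
  have i2 := integrableOn_rect_of_continuousOn c2.norm
  have i3 := integrableOn_rect_of_continuousOn c3.norm
  have i4 := integrableOn_rect_of_continuousOn c4.norm
  have i12 : IntegrableOn (fun z => ‖h z‖ + ‖h (I * z)‖) (Ioo 0 ρ ×ℂ Ioo 0 ρ) := i1.add i2
  have i123 : IntegrableOn (fun z => ‖h z‖ + ‖h (I * z)‖ + ‖h (-z)‖) (Ioo 0 ρ ×ℂ Ioo 0 ρ) :=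
    i12.add i3
  rw [← integral_add i1 i2, ← integral_add i12 i3, ← integral_add i123 i4]
  refine integral_mono (integrableOn_rect_of_continuousOn (((c1.add c2).add c3).add c4).norm)
    (i123.add i4) fun z => ?_
  exact le_trans (norm_add_le _ _) (add_le_add norm_add₃_le le_rfl)

/-- The sharp `L¹` inequality on the square for holomorphic functions vanishing at the centre. -/
theorem l1_bound {h : ℂ → ℂ} (hh : DifferentiableOn ℂ h (Ioo (-1) 1 ×ℂ Ioo (-1) 1))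
    (h0 : h 0 = 0) (hi : IntegrableOn h (Ioo (-1) 1 ×ℂ Ioo (-1) 1)) :
    π * ‖∫ z in Ioo (-1) 1 ×ℂ Ioo (-1) 1, h z‖ ≤ 2 * ∫ z in Ioo (-1) 1 ×ℂ Ioo (-1) 1, ‖h z‖ := by
  set ρ : ℕ → ℝ := fun n => 1 - 1 / ((n : ℝ) + 2) with hρ
  have hρ0 : ∀ n, 0 < ρ n := by
    intro n
    have : 1 / ((n : ℝ) + 2) < 1 := by
      rw [div_lt_one (by positivity)]; linarith [Nat.cast_nonneg (α := ℝ) n]
    simp only [hρ]; linarith
  have hρ1 : ∀ n, ρ n < 1 := by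
    intro n
    have : 0 < 1 / ((n : ℝ) + 2) := by positivity
    simp only [hρ]; linarith
  have hρm : Monotone ρ := by
    intro m n hmn
    have : (m : ℝ) ≤ n := by exact_mod_cast hmn
    have : 1 / ((n : ℝ) + 2) ≤ 1 / ((m : ℝ) + 2) :=
      one_div_le_one_div_of_le (by positivity) (by linarith)
    simp only [hρ]; linarith
  have hρt : Tendsto ρ atTop (𝓝 1) := by
    have : Tendsto (fun n : ℕ => 1 / ((n : ℝ) + 2)) atTop (𝓝 0) :=
      tendsto_const_nhds.div_atTop (tendsto_atTop_add_const_right _ _ tendsto_natCast_atTop_atTop)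
    have h2 := this.const_sub 1
    rw [sub_zero] at h2
    exact h2
  set S : ℕ → Set ℂ := fun n => Ioo (-ρ n) (ρ n) ×ℂ Ioo (-ρ n) (ρ n) with hS
  have hSsub : ∀ n, S n ⊆ Ioo (-1) 1 ×ℂ Ioo (-1) 1 := fun n z hz =>
    ⟨⟨by linarith [hz.1.1, hρ1 n], by linarith [hz.1.2, hρ1 n]⟩,
      ⟨by linarith [hz.2.1, hρ1 n], by linarith [hz.2.2, hρ1 n]⟩⟩
  have hSm : Monotone S := fun m n hmn z hz =>
    ⟨⟨by linarith [hz.1.1, hρm hmn], by linarith [hz.1.2, hρm hmn]⟩,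
      ⟨by linarith [hz.2.1, hρm hmn], by linarith [hz.2.2, hρm hmn]⟩⟩
  have hU : ⋃ n, S n = Ioo (-1) 1 ×ℂ Ioo (-1) 1 := by
    refine subset_antisymm (iUnion_subset hSsub) fun z hz => ?_
    have h1 : |z.re| < 1 := abs_lt.2 hz.1
    have h2 : |z.im| < 1 := abs_lt.2 hz.2
    obtain ⟨n, hn⟩ := ((hρt.eventually (lt_mem_nhds h1)).and
      (hρt.eventually (lt_mem_nhds h2))).exists
    exact mem_iUnion.2 ⟨n, abs_lt.1 hn.1, abs_lt.1 hn.2⟩
  have ht := tendsto_setIntegral_of_monotone (μ := volume) (f := h) (s := S)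
    (fun n => measurableSet_rect _ _ _ _) hSm (by rw [hU]; exact hi)
  rw [hU] at ht
  refine le_of_tendsto' (ht.norm.const_mul π) fun n => ?_
  refine le_trans (l1_bound_rho hh h0 (hρ0 n) (hρ1 n))
    (mul_le_mul_of_nonneg_left ?_ zero_le_two)
  exact setIntegral_mono_set hi.norm (Eventually.of_forall fun _ => norm_nonneg _)
    (LE.le.eventuallyLE (hSsub n))

theorem volume_square_lt_top : volume (Ioo (-1 : ℝ) 1 ×ℂ Ioo (-1 : ℝ) 1) < ⊤ :=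
  lt_of_le_of_lt (measure_mono (t := Icc (-1 : ℝ) 1 ×ℂ Icc (-1 : ℝ) 1)
    fun _ hz => ⟨Ioo_subset_Icc_self hz.1, Ioo_subset_Icc_self hz.2⟩)
    (isCompact_rect (-1) 1 (-1) 1).measure_lt_top

/-- Friedrichs' inequality on the square with constant `(π+2)/(π-2)`. -/
theorem upper (w : ℂ → ℂ) (hw : DifferentiableOn ℂ w (Ioo (-1) 1 ×ℂ Ioo (-1) 1))
    (hf : IntegrableOn (fun z => (w z).re ^ 2) (Ioo (-1) 1 ×ℂ Ioo (-1) 1))
    (hg : IntegrableOn (fun z => (w z).im ^ 2) (Ioo (-1) 1 ×ℂ Ioo (-1) 1))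
    (hm : ∫ z in Ioo (-1) 1 ×ℂ Ioo (-1) 1, (w z).re = 0) :
    ∫ z in Ioo (-1) 1 ×ℂ Ioo (-1) 1, (w z).re ^ 2 ≤
      (π + 2) / (π - 2) * ∫ z in Ioo (-1) 1 ×ℂ Ioo (-1) 1, (w z).im ^ 2 := by
  set Q : Set ℂ := Ioo (-1) 1 ×ℂ Ioo (-1) 1 with hQ
  have hQm : MeasurableSet Q := measurableSet_rect _ _ _ _
  have : IsFiniteMeasure (volume.restrict Q) := isFiniteMeasure_restrict.2 volume_square_lt_top.ne
  set a : ℝ := (w 0).re with ha
  set g0 : ℝ := (w 0).im with hg0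
  have hwm : AEStronglyMeasurable w (volume.restrict Q) := hw.continuousOn.aestronglyMeasurable hQm
  have hf1 : IntegrableOn (fun z => (w z).re) Q := by
    refine Integrable.mono' (hf.add (integrable_const 1))
      (continuous_re.comp_aestronglyMeasurable hwm) (Eventually.of_forall fun z => ?_)
    rw [Real.norm_eq_abs, Pi.add_apply, ← sq_abs]
    nlinarith [abs_nonneg (w z).re]
  have hfa : IntegrableOn (fun z => ((w z).re - a) ^ 2) Q := by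
    have := (hf.sub (hf1.const_mul (2 * a))).add (integrable_const (a ^ 2))
    refine this.congr (Eventually.of_forall fun z => ?_)
    simp only [Pi.add_apply, Pi.sub_apply]; ring
  have hle : ∫ z in Q, (w z).re ^ 2 ≤ ∫ z in Q, ((w z).re - a) ^ 2 := by
    have e : ∫ z in Q, ((w z).re - a) ^ 2 =
        ∫ z in Q, ((w z).re ^ 2 - 2 * a * (w z).re + a ^ 2) := by
      congr 1; ext z; ring
    have i1 : IntegrableOn (fun z => (w z).re ^ 2 - 2 * a * (w z).re) Q :=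
      hf.sub (hf1.const_mul (2 * a))
    rw [e, integral_add i1 (integrable_const _),
      integral_sub hf (hf1.const_mul (2 * a)), integral_const_mul, hm]
    have : 0 ≤ ∫ _ in Q, a ^ 2 := integral_nonneg fun _ => sq_nonneg a
    linarith
  set h : ℂ → ℂ := fun z => (w z - a) ^ 2 + (g0 : ℂ) ^ 2 with hh
  have hnorm : ∀ z, ‖h z‖ ≤ ((w z).re - a) ^ 2 + (w z).im ^ 2 + g0 ^ 2 := by
    intro z
    refine le_trans (norm_add_le _ _) (le_of_eq ?_)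
    rw [norm_pow, norm_pow, ← Complex.normSq_eq_norm_sq, ← Complex.normSq_eq_norm_sq,
      Complex.normSq_apply, Complex.normSq_apply]
    simp; ring
  have hre : ∀ z, (h z).re = ((w z).re - a) ^ 2 - (w z).im ^ 2 + g0 ^ 2 := by
    intro z
    simp [hh, sq]
  have hd : DifferentiableOn ℂ h Q := ((hw.sub_const _).pow 2).add_const _
  have h0 : h 0 = 0 := by
    have : w 0 - a = g0 * I := by
      apply Complex.ext <;> simp [ha, hg0]
    simp only [hh, this]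
    linear_combination (g0 : ℂ) ^ 2 * I_sq
  have hbi : IntegrableOn (fun z => ((w z).re - a) ^ 2 + (w z).im ^ 2 + g0 ^ 2) Q :=
    (hfa.add hg).add (integrable_const _)
  have hi : IntegrableOn h Q :=
    Integrable.mono' hbi (hd.continuousOn.aestronglyMeasurable hQm) (Eventually.of_forall hnorm)
  have key := l1_bound hd h0 hi
  have k1 : ∫ z in Q, ‖h z‖ ≤ ∫ z in Q, (((w z).re - a) ^ 2 + (w z).im ^ 2 + g0 ^ 2) :=
    integral_mono hi.norm hbi hnorm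
  have k2 : ∫ z in Q, (((w z).re - a) ^ 2 - (w z).im ^ 2 + g0 ^ 2) ≤ ‖∫ z in Q, h z‖ := by
    refine le_trans (le_of_eq ?_) (Complex.re_le_norm _)
    have := reCLM.integral_comp_comm hi
    simp only [reCLM_apply, hre] at this
    exact this
  have j1 : IntegrableOn (fun z => ((w z).re - a) ^ 2 + (w z).im ^ 2) Q := hfa.add hg
  have j2 : IntegrableOn (fun z => ((w z).re - a) ^ 2 - (w z).im ^ 2) Q := hfa.sub hg
  rw [integral_add j1 (integrable_const _), integral_add hfa hg] at k1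
  rw [integral_add j2 (integrable_const _), integral_sub hfa hg] at k2
  have k3 : 0 ≤ ∫ _ in Q, g0 ^ 2 := integral_nonneg fun _ => sq_nonneg g0
  have hpi : 0 < π - 2 := by linarith [Real.pi_gt_three]
  refine le_trans hle ?_
  rw [div_mul_eq_mul_div, le_div_iff₀ hpi]
  nlinarith [mul_le_mul_of_nonneg_left k2 Real.pi_pos.le, mul_nonneg hpi.le k3]

end Pool.Agent.Lib.MP_7c5c90_an
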