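import Mathlib
import Pool.Agent.Lib.MP_7c5c90_an.Upper

set_option autoImplicit false

open MeasureTheory Set Complex Filter Topology
open scoped Real

namespace Pool.Agent.Lib.MP_7c5c90_an

theorem iint_le {f g : ℝ → ℝ} {a b : ℝ} (hab : a ≤ b) (hf0 : ∀ x ∈ Icc a b, 0 ≤ f x)
    (hfg : ∀ x ∈ Icc a b, f x ≤ g x) (hg : IntervalIntegrable g volume a b) :
    ∫ x in a..b, f x ≤ ∫ x in a..b, g x := by
  rw [intervalIntegral.integral_of_le hab, intervalIntegral.integral_of_le hab]
  refine integral_mono_of_nonneg ?_ hg.1 ?_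
  · exact (ae_restrict_iff' measurableSet_Ioc).2
      (Eventually.of_forall fun x hx => hf0 x (Ioc_subset_Icc_self hx))
  · exact (ae_restrict_iff' measurableSet_Ioc).2
      (Eventually.of_forall fun x hx => hfg x (Ioc_subset_Icc_self hx))

/-- The test function with a pole just outside the corner `1 + i`. -/
noncomputable def test (δ : ℝ) (z : ℂ) : ℂ := (1 + I) / (((1 + δ : ℝ) : ℂ) + (1 + δ : ℝ) * I - z)

theorem den_re_pos {δ : ℝ} (hδ : 0 < δ) {z : ℂ} (hz : z ∈ Icc (-1 : ℝ) 1 ×ℂ Icc (-1 : ℝ) 1) :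
    0 < (((1 + δ : ℝ) : ℂ) + (1 + δ : ℝ) * I - z).re := by
  have := hz.1.2
  simp only [sub_re, add_re, ofReal_re, mul_re, I_re, mul_zero, ofReal_im, I_im, mul_one,
    sub_self, add_zero]
  linarith

theorem den_ne_zero {δ : ℝ} (hδ : 0 < δ) {z : ℂ} (hz : z ∈ Icc (-1 : ℝ) 1 ×ℂ Icc (-1 : ℝ) 1) :
    ((1 + δ : ℝ) : ℂ) + (1 + δ : ℝ) * I - z ≠ 0 := by
  intro h
  have := den_re_pos hδ hz
  rw [h] at this
  simp at this

theorem differentiableOn_test {δ : ℝ} (hδ : 0 < δ) :
    DifferentiableOn ℂ (test δ) (Icc (-1 : ℝ) 1 ×ℂ Icc (-1 : ℝ) 1) :=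
  DifferentiableOn.div (by fun_prop) (by fun_prop) fun _ hz => den_ne_zero hδ hz

theorem test_re (δ x y : ℝ) : (test δ (x + y * I)).re =
    ((1 + δ - x) + (1 + δ - y)) / ((1 + δ - x) ^ 2 + (1 + δ - y) ^ 2) := by
  rw [test, Complex.div_re, Complex.normSq_apply, ← add_div]
  simp [sq]

theorem test_im (δ x y : ℝ) : (test δ (x + y * I)).im =
    ((1 + δ - x) - (1 + δ - y)) / ((1 + δ - x) ^ 2 + (1 + δ - y) ^ 2) := by
  rw [test, Complex.div_im, Complex.normSq_apply, ← sub_div]
  simp [sq]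

theorem test_sum_le {δ : ℝ} (hδ : 0 < δ) :
    ∫ z in Ioo (-1) 1 ×ℂ Ioo (-1) 1, ((test δ z).re ^ 2 + (test δ z).im ^ 2) ≤
      π * (Real.log (2 + δ) - Real.log δ) := by
  have hc := (differentiableOn_test hδ).continuousOn
  rw [setIntegral_rect (f := fun z => (test δ z).re ^ 2 + (test δ z).im ^ 2)
    (by norm_num) (by norm_num) (integrableOn_rect_of_continuousOn
    (((continuous_re.comp_continuousOn hc).pow 2).add ((continuous_im.comp_continuousOn hc).pow 2)))]
  have hd : ∀ x ∈ uIcc (-1 : ℝ) 1, HasDerivAt (fun x => -(π * Real.log (1 + δ - x)))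
      (π / (1 + δ - x)) x := by
    intro x hx
    rw [uIcc_of_le (by norm_num)] at hx
    have h1 : 0 < 1 + δ - x := by linarith [hx.2]
    have := ((((hasDerivAt_id x).const_sub (1 + δ)).log h1.ne').const_mul π).neg
    refine this.congr_deriv ?_
    simp only [id]; ring
  have hcont : ContinuousOn (fun x : ℝ => π / (1 + δ - x)) (uIcc (-1 : ℝ) 1) := by
    rw [uIcc_of_le (by norm_num)]
    exact continuousOn_const.div (by fun_prop) fun x hx => by linarith [hx.2]
  have hval := intervalIntegral.integral_eq_sub_of_hasDerivAt hd hcont.intervalIntegrable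
  refine le_trans (iint_le (by norm_num) (fun x _ => intervalIntegral.integral_nonneg (by norm_num)
    fun y _ => by positivity) (fun x hx => ?_) hcont.intervalIntegrable) (le_of_eq ?_)
  · have h1 : 0 < 1 + δ - x := by linarith [hx.2]
    have hd2 : ∀ y ∈ uIcc (-1 : ℝ) 1, HasDerivAt
        (fun y => -(2 / (1 + δ - x) * Real.arctan ((1 + δ - y) / (1 + δ - x))))
        ((test δ (x + y * I)).re ^ 2 + (test δ (x + y * I)).im ^ 2) y := by
      intro y _
      have := (((((hasDerivAt_id y).const_sub (1 + δ)).div_const (1 + δ - x)).arctan).const_mul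
        (2 / (1 + δ - x))).neg
      refine this.congr_deriv ?_
      rw [test_re, test_im]
      simp only [id]
      have h2 : 0 < (1 + δ - x) ^ 2 + (1 + δ - y) ^ 2 := by positivity
      field_simp
      ring
    have hc2 : ContinuousOn (fun y : ℝ => (test δ (x + y * I)).re ^ 2 +
        (test δ (x + y * I)).im ^ 2) (uIcc (-1 : ℝ) 1) := by
      rw [uIcc_of_le (by norm_num)]
      have : ContinuousOn (fun y : ℝ => test δ (x + y * I)) (Icc (-1 : ℝ) 1) :=
        hc.comp (by fun_prop) fun y hy => by simpa [mem_reProdIm] using ⟨hx, hy⟩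
      exact ((continuous_re.comp_continuousOn this).pow 2).add
        ((continuous_im.comp_continuousOn this).pow 2)
    rw [intervalIntegral.integral_eq_sub_of_hasDerivAt hd2 hc2.intervalIntegrable]
    have a1 := (Real.arctan_lt_pi_div_two ((1 + δ - -1) / (1 + δ - x))).le
    have a2 : 0 ≤ Real.arctan ((1 + δ - 1) / (1 + δ - x)) :=
      Real.arctan_nonneg.2 (div_nonneg (by linarith) h1.le)
    have a3 : 0 < 2 / (1 + δ - x) := by positivity
    have e : π / (1 + δ - x) = 2 / (1 + δ - x) * (π / 2) := by ring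
    rw [e]
    nlinarith [mul_le_mul_of_nonneg_left a1 a3.le, mul_nonneg a3.le a2]
  · rw [hval]
    have e1 : 1 + δ - 1 = δ := by ring
    have e2 : 1 + δ - -1 = 2 + δ := by ring
    rw [e1, e2]; ring

theorem test_diff_ge {δ : ℝ} (hδ : 0 < δ) :
    2 * (Real.log (2 + δ) - Real.log δ) - 4 ≤
      ∫ z in Ioo (-1) 1 ×ℂ Ioo (-1) 1, ((test δ z).re ^ 2 - (test δ z).im ^ 2) := by
  have hc := (differentiableOn_test hδ).continuousOn
  set p : ℂ := ((1 + δ : ℝ) : ℂ) + (1 + δ : ℝ) * I with hp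
  have key := integral_rect_eq_second_primitive (a := -1) (b := 1) (c := -1) (d := 1)
    (by norm_num) (by norm_num) (h := fun z => test δ z ^ 2) (H1 := fun z => 2 * I * (p - z)⁻¹)
    (H := fun z => -(2 * I * Complex.log (p - z))) (hc.pow 2)
    (fun z hz => by
      have h0 := den_ne_zero hδ hz
      have := (((hasDerivAt_id z).const_sub p).inv h0).const_mul (2 * I)
      refine this.congr_deriv ?_
      simp only [id, test]
      rw [div_pow, ← hp]
      have : (1 + I) ^ 2 = 2 * I := by linear_combination I_sq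
      rw [this]; ring)
    (fun z hz => by
      have h0 := den_ne_zero hδ hz
      have := ((((hasDerivAt_id z).const_sub p).clog (Or.inl (den_re_pos hδ hz))).const_mul
        (2 * I)).neg
      refine this.congr_deriv ?_
      simp only [id]
      ring)
  have hi := integrableOn_rect_of_continuousOn (hc.pow 2)
  have hre := reCLM.integral_comp_comm hi
  simp only [reCLM_apply] at hre
  have e0 : ∫ z in Ioo (-1) 1 ×ℂ Ioo (-1) 1, ((test δ z).re ^ 2 - (test δ z).im ^ 2) =
      ∫ z in Ioo (-1) 1 ×ℂ Ioo (-1) 1, (test δ z ^ 2).re := by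
    congr 1; ext z; simp [sq]
  rw [e0]
  refine le_of_le_of_eq ?_ hre.symm
  erw [key]
  have e1 : ∀ A B C D : ℂ, (-I * (-(2 * I * A) - -(2 * I * B) - -(2 * I * C) + -(2 * I * D))).re =
      2 * (B.re + C.re - A.re - D.re) := by
    intro A B C D
    simp; ring
  rw [e1]
  simp only [Complex.log_re]
  have hL : 0 < 2 + δ := by linarith
  have n1 : ‖p - (((1 : ℝ) : ℂ) + (1 : ℝ) * I)‖ ≤ 2 * δ := by
    refine le_trans (Complex.norm_le_abs_re_add_abs_im _) (le_of_eq ?_)
    simp [hp, abs_of_pos hδ]; ring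
  have n4 : ‖p - (((-1 : ℝ) : ℂ) + (-1 : ℝ) * I)‖ ≤ 2 * (2 + δ) := by
    refine le_trans (Complex.norm_le_abs_re_add_abs_im _) (le_of_eq ?_)
    have : |1 + δ + 1| = 2 + δ := by rw [abs_of_pos (by linarith)]; ring
    simp [hp, this]; ring
  have n2 : 2 + δ ≤ ‖p - (((-1 : ℝ) : ℂ) + (1 : ℝ) * I)‖ := by
    refine le_trans (le_of_eq ?_) (Complex.re_le_norm _)
    simp [hp]; ring
  have n3 : 2 + δ ≤ ‖p - (((1 : ℝ) : ℂ) + (-1 : ℝ) * I)‖ := by
    refine le_trans (le_of_eq ?_) (Complex.im_le_norm _)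
    simp [hp]; ring
  have m1 : (((1 : ℝ) : ℂ) + (1 : ℝ) * I) ∈ Icc (-1 : ℝ) 1 ×ℂ Icc (-1 : ℝ) 1 := by
    simp [mem_reProdIm]
  have m4 : (((-1 : ℝ) : ℂ) + (-1 : ℝ) * I) ∈ Icc (-1 : ℝ) 1 ×ℂ Icc (-1 : ℝ) 1 := by
    simp [mem_reProdIm]
  have l1 := Real.log_le_log (norm_pos_iff.2 (den_ne_zero hδ m1)) n1
  have l4 := Real.log_le_log (norm_pos_iff.2 (den_ne_zero hδ m4)) n4
  have l2 := Real.log_le_log hL n2
  have l3 := Real.log_le_log hL n3
  rw [Real.log_mul two_ne_zero hδ.ne'] at l1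
  rw [Real.log_mul two_ne_zero hL.ne'] at l4
  have l5 : Real.log 2 ≤ 1 := by linarith [Real.log_two_lt_d9]
  linarith

theorem test_mean {δ : ℝ} (hδ : 0 < δ) (hδ1 : δ ≤ 1) :
    0 ≤ ∫ z in Ioo (-1) 1 ×ℂ Ioo (-1) 1, (test δ z).re ∧
      ∫ z in Ioo (-1) 1 ×ℂ Ioo (-1) 1, (test δ z).re ≤ 16 := by
  have hc := (differentiableOn_test hδ).continuousOn
  rw [setIntegral_rect (f := fun z => (test δ z).re) (by norm_num) (by norm_num)
    (integrableOn_rect_of_continuousOn (continuous_re.comp_continuousOn hc))]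
  have hpos : ∀ x ∈ Icc (-1 : ℝ) 1, ∀ y ∈ Icc (-1 : ℝ) 1, 0 ≤ (test δ (x + y * I)).re := by
    intro x hx y hy
    rw [test_re]
    exact div_nonneg (by linarith [hx.2, hy.2]) (by positivity)
  have hcu : ContinuousOn (fun t : ℝ => (√(1 + δ - t))⁻¹) (uIcc (-1 : ℝ) 1) := by
    rw [uIcc_of_le (by norm_num)]
    exact ContinuousOn.inv₀ (by fun_prop) fun t ht =>
      (Real.sqrt_pos.2 (by linarith [ht.2])).ne'
  have hu : ∫ t in (-1 : ℝ)..1, (√(1 + δ - t))⁻¹ ≤ 4 := by
    have hd : ∀ t ∈ uIcc (-1 : ℝ) 1, HasDerivAt (fun t => -(2 * √(1 + δ - t)))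
        ((√(1 + δ - t))⁻¹) t := by
      intro t ht
      rw [uIcc_of_le (by norm_num)] at ht
      have h1 : 0 < 1 + δ - t := by linarith [ht.2]
      have := ((((hasDerivAt_id t).const_sub (1 + δ)).sqrt h1.ne').const_mul 2).neg
      refine this.congr_deriv ?_
      simp only [id]
      field_simp
    rw [intervalIntegral.integral_eq_sub_of_hasDerivAt hd hcu.intervalIntegrable]
    have h1 : √(1 + δ - -1) ≤ 2 := Real.sqrt_le_iff.2 ⟨by norm_num, by linarith⟩
    linarith [Real.sqrt_nonneg (1 + δ - 1)]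
  refine ⟨intervalIntegral.integral_nonneg (by norm_num) fun x hx =>
    intervalIntegral.integral_nonneg (by norm_num) (hpos x hx), ?_⟩
  refine le_trans (iint_le (g := fun x => 4 * (√(1 + δ - x))⁻¹) (by norm_num)
    (fun x hx => intervalIntegral.integral_nonneg (by norm_num) (hpos x hx)) (fun x hx => ?_)
    (hcu.intervalIntegrable.const_mul 4)) ?_
  · have hX : 0 < 1 + δ - x := by linarith [hx.2]
    refine le_trans (iint_le (g := fun y => (√(1 + δ - x))⁻¹ * (√(1 + δ - y))⁻¹) (by norm_num)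
      (hpos x hx) (fun y hy => ?_) (hcu.intervalIntegrable.const_mul _)) ?_
    · have hY : 0 < 1 + δ - y := by linarith [hy.2]
      rw [test_re]
      have h1 := Real.sqrt_pos.2 hX
      have h2 := Real.sqrt_pos.2 hY
      have h3 := Real.sq_sqrt hX.le
      have h4 := Real.sq_sqrt hY.le
      generalize √(1 + δ - x) = s at *
      generalize √(1 + δ - y) = t at *
      rw [← h3, ← h4, ← mul_inv, inv_eq_one_div, div_le_div_iff₀ (by positivity) (by positivity)]
      nlinarith [mul_nonneg (sq_nonneg (s - t)) (show 0 ≤ s ^ 2 + s * t + t ^ 2 by positivity)]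
    · rw [intervalIntegral.integral_const_mul, mul_comm]
      exact mul_le_mul_of_nonneg_right hu (by positivity)
  · rw [intervalIntegral.integral_const_mul]
    linarith

/-- No constant below `(π+2)/(π-2)` works. -/
theorem lower (Γ : ℝ) (hΓ : ∀ w : ℂ → ℂ, DifferentiableOn ℂ w (Ioo (-1) 1 ×ℂ Ioo (-1) 1) →
    IntegrableOn (fun z => (w z).re ^ 2) (Ioo (-1) 1 ×ℂ Ioo (-1) 1) →
    IntegrableOn (fun z => (w z).im ^ 2) (Ioo (-1) 1 ×ℂ Ioo (-1) 1) →
    ∫ z in Ioo (-1) 1 ×ℂ Ioo (-1) 1, (w z).re = 0 →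
    ∫ z in Ioo (-1) 1 ×ℂ Ioo (-1) 1, (w z).re ^ 2 ≤
      Γ * ∫ z in Ioo (-1) 1 ×ℂ Ioo (-1) 1, (w z).im ^ 2) :
    (π + 2) / (π - 2) ≤ Γ := by
  have hpi : 0 < π - 2 := by linarith [Real.pi_gt_three]
  set Q : Set ℂ := Ioo (-1) 1 ×ℂ Ioo (-1) 1 with hQ
  have : IsFiniteMeasure (volume.restrict Q) := isFiniteMeasure_restrict.2 volume_square_lt_top.ne
  have hconst : ∀ c : ℝ, ∫ _ in Q, c = 4 * c := by
    intro c
    rw [hQ, setIntegral_rect (f := fun _ => c) (by norm_num) (by norm_num) (integrable_const _)]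
    simp; ring
  set G : ℝ := max Γ 1 with hG
  have hG1 : 1 ≤ G := le_max_right _ _
  have main : ∀ T : ℝ, 0 ≤ T → T * ((π + 2) - G * (π - 2)) ≤ 128 + 4 * (1 + G) ∨
      (π + 2) - G * (π - 2) ≤ 0 := by
    intro T hT
    by_cases hk : (π + 2) - G * (π - 2) ≤ 0
    · exact Or.inr hk
    left
    push Not at hk
    set δ : ℝ := Real.exp (-T) with hδdef
    have hδ : 0 < δ := Real.exp_pos _
    have hδ1 : δ ≤ 1 := Real.exp_le_one_iff.2 (by linarith)
    have hl : T ≤ Real.log (2 + δ) - Real.log δ := by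
      rw [hδdef, Real.log_exp]
      have : 0 ≤ Real.log (2 + Real.exp (-T)) := Real.log_nonneg (by linarith)
      linarith
    have hc := (differentiableOn_test hδ).continuousOn
    have i0 : IntegrableOn (fun z => (test δ z).re) Q :=
      integrableOn_rect_of_continuousOn (continuous_re.comp_continuousOn hc)
    have i1 : IntegrableOn (fun z => (test δ z).re ^ 2) Q :=
      integrableOn_rect_of_continuousOn ((continuous_re.comp_continuousOn hc).pow 2)
    have i2 : IntegrableOn (fun z => (test δ z).im ^ 2) Q :=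
      integrableOn_rect_of_continuousOn ((continuous_im.comp_continuousOn hc).pow 2)
    have hA := test_sum_le hδ
    have hB := test_diff_ge hδ
    obtain ⟨hm0, hm1⟩ := test_mean hδ hδ1
    rw [integral_add i1 i2] at hA
    rw [integral_sub i1 i2] at hB
    set m : ℝ := (∫ z in Q, (test δ z).re) / 4 with hm
    have i3 : IntegrableOn (fun z => (test δ z).re ^ 2 - 2 * m * (test δ z).re) Q :=
      i1.sub (i0.const_mul _)
    have e1 : ∀ z, (test δ z - m).re ^ 2 =
        (test δ z).re ^ 2 - 2 * m * (test δ z).re + m ^ 2 := by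
      intro z; simp; ring
    have h := hΓ (fun z => test δ z - m)
      (((differentiableOn_test hδ).mono fun _ hz =>
        ⟨Ioo_subset_Icc_self hz.1, Ioo_subset_Icc_self hz.2⟩).sub_const _)
      (by simp only [e1]; exact i3.add (integrable_const _))
      (by simpa using i2)
      (by
        simp only [sub_re, ofReal_re]
        rw [integral_sub i0 (integrable_const _), hconst, hm]; ring)
    simp only [e1, sub_im, ofReal_im, sub_zero] at h
    rw [integral_add i3 (integrable_const _), integral_sub i1 (i0.const_mul _),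
      integral_const_mul, hconst] at h
    have hg0 : 0 ≤ ∫ z in Q, (test δ z).im ^ 2 := integral_nonneg fun _ => sq_nonneg _
    have h2 : Γ * ∫ z in Q, (test δ z).im ^ 2 ≤ G * ∫ z in Q, (test δ z).im ^ 2 :=
      mul_le_mul_of_nonneg_right (le_max_left _ _) hg0
    have hI : ∫ z in Q, (test δ z).re = 4 * m := by rw [hm]; ring
    rw [hI] at h hm0 hm1
    have hm2 : m ^ 2 ≤ 16 := by nlinarith
    generalize ∫ z in Q, (test δ z).re ^ 2 = X at *
    generalize ∫ z in Q, (test δ z).im ^ 2 = Y at *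
    generalize Real.log (2 + δ) - Real.log δ = l at *
    have h3 : X - 64 ≤ G * Y := by nlinarith
    have h4 := mul_le_mul_of_nonneg_right hA (sub_nonneg.2 hG1)
    have h5 := mul_le_mul_of_nonneg_right hB (show 0 ≤ 1 + G by linarith)
    have h6 := mul_le_mul_of_nonneg_right hl hk.le
    nlinarith
  have hk : (π + 2) - G * (π - 2) ≤ 0 := by
    by_contra hk
    push Not at hk
    rcases main ((128 + 4 * (1 + G)) / ((π + 2) - G * (π - 2)) + 1) (by positivity) with h | h
    · rw [add_mul, div_mul_cancel₀ _ hk.ne'] at h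
      linarith
    · linarith
  rw [div_le_iff₀ hpi]
  rcases le_total Γ 1 with h | h
  · rw [hG, max_eq_right h] at hk
    linarith
  · rw [hG, max_eq_left h] at hk
    linarith

end Pool.Agent.Lib.MP_7c5c90_an
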